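import Mathlib
import Pool.Agent.Helper186.LocDiffeo

/-! Local diffeomorphisms that are homotopically right invertible are diffeomorphisms. -/

open scoped Topology ContDiff Manifold unitInterval
open Set Metric Bundle

noncomputable section

namespace Pool.Agent.Run7.h811

set_option linter.unusedSectionVars false

/-- A local homeomorphism from a compact connected Hausdorff space that has a right inverse up to
homotopy is bijective. -/
theorem bijective_of_homotopy {A B : Type*} [TopologicalSpace A] [TopologicalSpace B]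
    [CompactSpace A] [ConnectedSpace A] [T2Space A] [T2Space B] {T : A → B}
    (hT : IsLocalHomeomorph T) (f : C(B, A)) (H : C(I × B, B))
    (h0 : ∀ y, H (0, y) = T (f y)) (h1 : ∀ y, H (1, y) = y) : Function.Bijective T := by
  have cov : IsCoveringMap T := isLocalHomeomorph_iff_isCoveringMap.1 hT
  set G := cov.liftHomotopy H f h0 with hG
  have hGl : ∀ p, T (G p) = H p := fun p => congrFun (cov.liftHomotopy_lifts H f h0) p
  let s : B → A := fun y => G (1, y)
  have hs : Continuous s := G.continuous.comp (Continuous.prodMk_right _)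
  have hTs : ∀ y, T (s y) = y := fun y => (hGl _).trans (h1 y)
  have hTc : Continuous T := hT.continuous
  set S : Set A := {x | s (T x) = x} with hS
  have hScl : IsClosed S := isClosed_eq (hs.comp hTc) continuous_id
  have hSop : IsOpen S := by
    rw [isOpen_iff_mem_nhds]
    intro x hx
    obtain ⟨e, hxe, rfl⟩ := hT x
    have hsrc : e.source ∈ 𝓝 x := e.open_source.mem_nhds hxe
    have h2 : ∀ᶠ x' in 𝓝 x, s (e x') ∈ e.source := by
      have h3 : ContinuousAt (fun x' => s (e x')) x := (hs.comp hTc).continuousAt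
      refine h3.eventually ?_
      have h4 : (fun x' => s (e x')) x = x := hx
      rw [h4]
      exact hsrc
    filter_upwards [hsrc, h2] with x' hx1 hx2
    exact e.injOn hx2 hx1 (hTs _)
  obtain ⟨x₀⟩ := (inferInstance : Nonempty A)
  have hne : S.Nonempty := ⟨s (T x₀), by
    show s (T (s (T x₀))) = s (T x₀)
    rw [hTs]⟩
  have huniv : S = univ := IsClopen.eq_univ ⟨hScl, hSop⟩ hne
  refine ⟨fun x y hxy => ?_, fun y => ⟨s y, hTs y⟩⟩
  have hx : x ∈ S := by rw [huniv]; trivial
  have hy : y ∈ S := by rw [huniv]; trivial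
  have hx' : s (T x) = x := hx
  have hy' : s (T y) = y := hy
  rw [← hx', hxy, hy']

variable {E : Type*} [NormedAddCommGroup E] [NormedSpace ℝ E] [FiniteDimensional ℝ E]
  {M₁ : Type*} [TopologicalSpace M₁] [ChartedSpace E M₁] [IsManifold 𝓘(ℝ, E) ∞ M₁]
  {M₂ : Type*} [TopologicalSpace M₂] [ChartedSpace E M₂] [IsManifold 𝓘(ℝ, E) ∞ M₂]

/-- A smooth map between equidimensional manifolds with injective differential is a local
homeomorphism. -/
theorem isLocalHomeomorph_of_mfderiv {T : M₁ → M₂} (hT : ContMDiff 𝓘(ℝ, E) 𝓘(ℝ, E) ∞ T)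
    (hinj : ∀ q, Function.Injective (mfderiv 𝓘(ℝ, E) 𝓘(ℝ, E) T q)) : IsLocalHomeomorph T := by
  rw [isLocalHomeomorph_iff_isOpenEmbedding_restrict]
  intro q
  obtain ⟨S, v, hSo, hqS, hinv, hopen, -⟩ :=
    Pool.Agent.Helper186.local_inverse hT (hinj q) rfl
  refine ⟨S, hSo.mem_nhds hqS, ?_⟩
  refine Topology.IsOpenEmbedding.of_continuous_injective_isOpenMap ?_ ?_ ?_
  · exact hT.continuous.comp continuous_subtype_val
  · intro a b hab
    have h1 := hinv a a.2
    have h2 := hinv b b.2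
    have hab' : T a = T b := hab
    apply Subtype.ext
    rw [← h1, ← h2, hab']
  · intro W hW
    have h1 : IsOpen ((Subtype.val : S → M₁) '' W) := hSo.isOpenMap_subtype_val W hW
    have h2 : S.domRestrict T '' W = T '' (Subtype.val '' W) := by
      rw [image_image]
      rfl
    rw [h2]
    refine hopen _ ?_ h1
    rintro _ ⟨x, _, rfl⟩
    exact x.2

/-- A smooth bijection with injective differential is a diffeomorphism. -/
theorem nonempty_diffeomorph {T : M₁ → M₂} (hT : ContMDiff 𝓘(ℝ, E) 𝓘(ℝ, E) ∞ T)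
    (hinj : ∀ q, Function.Injective (mfderiv 𝓘(ℝ, E) 𝓘(ℝ, E) T q))
    (hbij : Function.Bijective T) : Nonempty (M₁ ≃ₘ^∞⟮𝓘(ℝ, E), 𝓘(ℝ, E)⟯ M₂) := by
  let e : M₁ ≃ M₂ := Equiv.ofBijective T hbij
  refine ⟨⟨e, hT, ?_⟩⟩
  intro y
  obtain ⟨q, rfl⟩ := hbij.2 y
  obtain ⟨S, v, hSo, hqS, hinv, hopen, hv⟩ :=
    Pool.Agent.Helper186.local_inverse hT (hinj q) rfl
  refine (hv q hqS).congr_of_eventuallyEq ?_
  have h1 : IsOpen (T '' S) := hopen S subset_rfl hSo
  filter_upwards [h1.mem_nhds ⟨q, hqS, rfl⟩] with y hy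
  obtain ⟨x, hx, rfl⟩ := hy
  have h2 : e.symm (T x) = x := e.symm_apply_apply x
  exact h2.trans (hinv x hx).symm

/-- The conclusion used below. -/
theorem diffeomorph_of_homotopy [CompactSpace M₁] [ConnectedSpace M₁] [T2Space M₁] [T2Space M₂]
    {T : M₁ → M₂} (hT : ContMDiff 𝓘(ℝ, E) 𝓘(ℝ, E) ∞ T)
    (hinj : ∀ q, Function.Injective (mfderiv 𝓘(ℝ, E) 𝓘(ℝ, E) T q))
    (f : C(M₂, M₁)) (H : C(I × M₂, M₂))
    (h0 : ∀ y, H (0, y) = T (f y)) (h1 : ∀ y, H (1, y) = y) :
    Nonempty (M₁ ≃ₘ^∞⟮𝓘(ℝ, E), 𝓘(ℝ, E)⟯ M₂) :=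
  nonempty_diffeomorph hT hinj (bijective_of_homotopy (isLocalHomeomorph_of_mfderiv hT hinj) f H h0 h1)

end Pool.Agent.Run7.h811
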