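import Mathlib
import Pool.Agent.Helper186.Cot

/-! Tangent vectors of the cotangent bundle in the preferred charts. -/

open scoped Topology ContDiff Manifold
open Set Metric Bundle

noncomputable section

namespace Pool.Agent.Run7.h811

open Pool.Agent.Helper186

set_option linter.unusedSectionVars false

variable {F : Type*} [NormedAddCommGroup F] [NormedSpace ℝ F] [FiniteDimensional ℝ F]
  {L : Type*} [TopologicalSpace L] [ChartedSpace F L] [IsManifold 𝓘(ℝ, F) ∞ L]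

/-- The coordinate `p(a)` in the chart at `q₀`. -/
def cotCoord (q₀ : L) (a : F) (x : Cotangent F L) : ℝ :=
  (trivializationAt (F →L[ℝ] ℝ) (fun x : L => TangentSpace 𝓘(ℝ, F) x →L[ℝ] ℝ) q₀ x).2 a

lemma cotCoord_eq (q₀ : L) (a : F) (x : Cotangent F L) :
    cotCoord q₀ a x = x.2 ((trivializationAt F (TangentSpace 𝓘(ℝ, F)) q₀).symmL ℝ x.1 a) :=
  cot_triv_apply q₀ x.1 x.2 a

lemma extChartAt_cot (x y : Cotangent F L) :
    extChartAt (IC F) x y = (extChartAt 𝓘(ℝ, F) x.1 (trivializationAt (F →L[ℝ] ℝ)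
      (fun x : L => TangentSpace 𝓘(ℝ, F) x →L[ℝ] ℝ) x.1 y).1,
      (trivializationAt (F →L[ℝ] ℝ)
      (fun x : L => TangentSpace 𝓘(ℝ, F) x →L[ℝ] ℝ) x.1 y).2) := by
  rw [FiberBundle.extChartAt]
  rfl

lemma eventually_triv_fst (x : Cotangent F L) : ∀ᶠ y in 𝓝 x,
    (trivializationAt (F →L[ℝ] ℝ)
      (fun x : L => TangentSpace 𝓘(ℝ, F) x →L[ℝ] ℝ) x.1 y).1 = y.1 := by
  set e := trivializationAt (F →L[ℝ] ℝ) (fun x : L => TangentSpace 𝓘(ℝ, F) x →L[ℝ] ℝ) x.1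
  have h1 : x ∈ e.source := by
    rw [e.mem_source]; exact mem_baseSet_trivializationAt _ _ x.1
  filter_upwards [e.open_source.mem_nhds h1] with y hy
  exact e.coe_fst hy

/-- The differential of the projection. -/
lemma mfderiv_projC (x : Cotangent F L) (V : TangentSpace (IC F) x) :
    mfderiv (IC F) 𝓘(ℝ, F) (TotalSpace.proj : Cotangent F L → L) x V = V.1 := by
  have h1 : (fun y => extChartAt 𝓘(ℝ, F) x.1 (TotalSpace.proj y)) =ᶠ[𝓝 x]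
      (fun y => (extChartAt (IC F) x y).1) := by
    filter_upwards [eventually_triv_fst x] with y hy
    rw [extChartAt_cot, hy]
  have h2 : mfderiv (IC F) 𝓘(ℝ, F) (fun y => extChartAt 𝓘(ℝ, F) x.1 (TotalSpace.proj y)) x V =
      mfderiv (IC F) 𝓘(ℝ, F) (TotalSpace.proj : Cotangent F L → L) x V := by
    have h3 := mfderiv_comp (I := IC F) (I' := 𝓘(ℝ, F)) (I'' := 𝓘(ℝ, F)) x
      (g := extChartAt 𝓘(ℝ, F) x.1) (f := (TotalSpace.proj : Cotangent F L → L))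
      (contMDiffAt_extChartAt (n := ∞)|>.mdifferentiableAt (by simp))
      (contMDiff_projC.mdifferentiableAt (by simp))
    have h4 := DFunLike.congr_fun h3 V
    refine h4.trans ?_
    exact Pool.Agent.Helper186.mfderiv_extChartAt_self (I := 𝓘(ℝ, F)) x.1 _
  have h5 : mfderiv (IC F) 𝓘(ℝ, F) (fun y => (extChartAt (IC F) x y).1) x V = V.1 := by
    have h3 := mfderiv_comp (I := IC F) (I' := 𝓘(ℝ, F × (F →L[ℝ] ℝ))) (I'' := 𝓘(ℝ, F)) x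
      (g := Prod.fst) (f := extChartAt (IC F) x)
      ((ContinuousLinearMap.fst ℝ F (F →L[ℝ] ℝ)).differentiableAt.mdifferentiableAt)
      (contMDiffAt_extChartAt (n := ∞)|>.mdifferentiableAt (by simp))
    have h4 := DFunLike.congr_fun h3 V
    refine h4.trans ?_
    have h6 : mfderiv 𝓘(ℝ, F × (F →L[ℝ] ℝ)) 𝓘(ℝ, F) Prod.fst (extChartAt (IC F) x x) =
        ContinuousLinearMap.fst ℝ F (F →L[ℝ] ℝ) := by
      rw [mfderiv_eq_fderiv]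
      exact (ContinuousLinearMap.fst ℝ F (F →L[ℝ] ℝ)).fderiv
    have h7 := Pool.Agent.Helper186.mfderiv_extChartAt_self (I := IC F) x V
    show (mfderiv 𝓘(ℝ, F × (F →L[ℝ] ℝ)) 𝓘(ℝ, F) Prod.fst (extChartAt (IC F) x x))
      (mfderiv (IC F) 𝓘(ℝ, F × (F →L[ℝ] ℝ)) (extChartAt (IC F) x) x V) = V.1
    rw [h6]
    exact congrArg Prod.fst h7
  have h8 := h1.mfderiv_eq (I := IC F) (I' := 𝓘(ℝ, F))
  have h9 := DFunLike.congr_fun h8 V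
  exact h2.symm.trans (h9.trans h5)

lemma contMDiffAt_cotCoord {q₀ : L} (a : F) {x : Cotangent F L}
    (hx : x.1 ∈ (chartAt F q₀).source) :
    ContMDiffAt (IC F) 𝓘(ℝ, ℝ) ∞ (cotCoord q₀ a : Cotangent F L → ℝ) x := by
  let e := trivializationAt (F →L[ℝ] ℝ) (fun x : L => TangentSpace 𝓘(ℝ, F) x →L[ℝ] ℝ) q₀
  have h1 : x ∈ e.source := by
    rw [e.mem_source]
    show x.proj ∈ (trivializationAt (F →L[ℝ] ℝ)
      (fun x : L => TangentSpace 𝓘(ℝ, F) x →L[ℝ] ℝ) q₀).baseSet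
    rw [hom_trivializationAt_baseSet]
    exact ⟨by simpa using hx, by simp⟩
  have h2 : ContMDiffAt (IC F) (𝓘(ℝ, F).prod 𝓘(ℝ, F →L[ℝ] ℝ)) ∞ e x :=
    (Bundle.Trivialization.contMDiffOn (n := ∞) (IB := 𝓘(ℝ, F)) e).contMDiffAt
      (e.open_source.mem_nhds h1)
  have h3 : ContMDiffAt (IC F) 𝓘(ℝ, F →L[ℝ] ℝ) ∞ (fun y => (e y).2) x :=
    contMDiffAt_snd.comp x h2
  exact h3.clm_apply contMDiffAt_const

/-- The differential of the coordinate `p(a)` at a point over `q₀`. -/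
lemma mfderiv_cotCoord {q₀ : L} (a : F) (x : Cotangent F L) (hx : x.1 = q₀)
    (V : TangentSpace (IC F) x) :
    mfderiv (IC F) 𝓘(ℝ, ℝ) (cotCoord q₀ a : Cotangent F L → ℝ) x V = V.2 a := by
  subst hx
  have h1 : (cotCoord x.1 a : Cotangent F L → ℝ) =
      (fun w : F × (F →L[ℝ] ℝ) => w.2 a) ∘ (extChartAt (IC F) x) := by
    funext y
    simp only [Function.comp]
    rw [extChartAt_cot]
    rfl
  have h2 : HasFDerivAt (fun w : F × (F →L[ℝ] ℝ) => w.2 a)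
      ((ContinuousLinearMap.apply ℝ ℝ a).comp (ContinuousLinearMap.snd ℝ F (F →L[ℝ] ℝ)))
      (extChartAt (IC F) x x) :=
    ((ContinuousLinearMap.apply ℝ ℝ a).comp
      (ContinuousLinearMap.snd ℝ F (F →L[ℝ] ℝ))).hasFDerivAt
  have h3 := mfderiv_comp (I := IC F) (I' := 𝓘(ℝ, F × (F →L[ℝ] ℝ))) (I'' := 𝓘(ℝ, ℝ)) x
      (g := fun w : F × (F →L[ℝ] ℝ) => w.2 a) (f := extChartAt (IC F) x)
      (h2.differentiableAt.mdifferentiableAt)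
      (contMDiffAt_extChartAt (n := ∞)|>.mdifferentiableAt (by simp))
  rw [h1]
  have h4 := DFunLike.congr_fun h3 V
  refine h4.trans ?_
  have h6 : mfderiv 𝓘(ℝ, F × (F →L[ℝ] ℝ)) 𝓘(ℝ, ℝ) (fun w : F × (F →L[ℝ] ℝ) => w.2 a)
      (extChartAt (IC F) x x) =
      ((ContinuousLinearMap.apply ℝ ℝ a).comp (ContinuousLinearMap.snd ℝ F (F →L[ℝ] ℝ))) := by
    rw [mfderiv_eq_fderiv]
    exact h2.fderiv
  have h7 := Pool.Agent.Helper186.mfderiv_extChartAt_self (I := IC F) x V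
  show (mfderiv 𝓘(ℝ, F × (F →L[ℝ] ℝ)) 𝓘(ℝ, ℝ) (fun w : F × (F →L[ℝ] ℝ) => w.2 a)
      (extChartAt (IC F) x x))
    (mfderiv (IC F) 𝓘(ℝ, F × (F →L[ℝ] ℝ)) (extChartAt (IC F) x) x V) = V.2 a
  rw [h6]
  exact congrArg (fun w : F × (F →L[ℝ] ℝ) => w.2 a) h7

/-- A straight line in the chart at `q₀`. -/
def chartLine (q₀ : L) (a : F) (t : ℝ) : L :=
  (extChartAt 𝓘(ℝ, F) q₀).symm (extChartAt 𝓘(ℝ, F) q₀ q₀ + t • a)

lemma chartLine_zero (q₀ : L) (a : F) : chartLine q₀ a 0 = q₀ := by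
  unfold chartLine
  rw [zero_smul, add_zero]
  exact extChartAt_to_inv q₀

lemma eventually_mem_target (q₀ : L) (a : F) :
    ∀ᶠ t : ℝ in 𝓝 0, extChartAt 𝓘(ℝ, F) q₀ q₀ + t • a ∈ (extChartAt 𝓘(ℝ, F) q₀).target := by
  have h1 : Continuous (fun t : ℝ => extChartAt 𝓘(ℝ, F) q₀ q₀ + t • a) := by fun_prop
  refine h1.continuousAt.eventually ((isOpen_extChartAt_target q₀).mem_nhds ?_)
  show extChartAt 𝓘(ℝ, F) q₀ q₀ + (0:ℝ) • a ∈ _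
  rw [zero_smul, add_zero]
  exact mem_extChartAt_target q₀

/-- The velocity of a chart line. -/
lemma hasMFDerivAt_chartLine (q₀ : L) (a : F) : ∀ᶠ t : ℝ in 𝓝 0,
    HasMFDerivAt 𝓘(ℝ, ℝ) 𝓘(ℝ, F) (chartLine q₀ a) t ((1 : ℝ →L[ℝ] ℝ).smulRight
      ((trivializationAt F (TangentSpace 𝓘(ℝ, F)) q₀).symmL ℝ (chartLine q₀ a t) a)) := by
  filter_upwards [eventually_mem_target q₀ a] with t ht
  have h1 : HasFDerivAt (fun t : ℝ => extChartAt 𝓘(ℝ, F) q₀ q₀ + t • a)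
      ((1 : ℝ →L[ℝ] ℝ).smulRight a) t := by
    have h2 : HasFDerivAt (fun t : ℝ => t • a) ((1 : ℝ →L[ℝ] ℝ).smulRight a) t :=
      (hasFDerivAt_id (𝕜 := ℝ) t).smul_const a
    exact h2.const_add _
  have h3 : MDifferentiableAt 𝓘(ℝ, F) 𝓘(ℝ, F) (extChartAt 𝓘(ℝ, F) q₀).symm
      (extChartAt 𝓘(ℝ, F) q₀ q₀ + t • a) :=
    ((contMDiffOn_extChartAt_symm (n := ∞) q₀).contMDiffAt
      ((isOpen_extChartAt_target q₀).mem_nhds ht)).mdifferentiableAt (by simp)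
  have h4 := h3.hasMFDerivAt.comp t h1.hasMFDerivAt
  have h5 : ((mfderiv 𝓘(ℝ, F) 𝓘(ℝ, F) (extChartAt 𝓘(ℝ, F) q₀).symm
      (extChartAt 𝓘(ℝ, F) q₀ q₀ + t • a)).comp ((1 : ℝ →L[ℝ] ℝ).smulRight a)) =
      ((1 : ℝ →L[ℝ] ℝ).smulRight
      ((trivializationAt F (TangentSpace 𝓘(ℝ, F)) q₀).symmL ℝ (chartLine q₀ a t) a)) := by
    have h6 : (extChartAt 𝓘(ℝ, F) q₀).symm (extChartAt 𝓘(ℝ, F) q₀ q₀ + t • a) ∈
        (chartAt F q₀).source := by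
      have h7 := (extChartAt 𝓘(ℝ, F) q₀).map_target ht
      rwa [extChartAt_source] at h7
    have h8 := TangentBundle.symmL_trivializationAt (I := 𝓘(ℝ, F)) h6
    have h9 : extChartAt 𝓘(ℝ, F) q₀ ((extChartAt 𝓘(ℝ, F) q₀).symm
        (extChartAt 𝓘(ℝ, F) q₀ q₀ + t • a)) = extChartAt 𝓘(ℝ, F) q₀ q₀ + t • a :=
      (extChartAt 𝓘(ℝ, F) q₀).right_inv ht
    refine ContinuousLinearMap.ext fun r => ?_
    have h10 := DFunLike.congr_fun h8 a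
    show (mfderiv 𝓘(ℝ, F) 𝓘(ℝ, F) (extChartAt 𝓘(ℝ, F) q₀).symm
      (extChartAt 𝓘(ℝ, F) q₀ q₀ + t • a)) (r • a) = r •
      ((trivializationAt F (TangentSpace 𝓘(ℝ, F)) q₀).symmL ℝ (chartLine q₀ a t) a)
    have h11 : ((trivializationAt F (TangentSpace 𝓘(ℝ, F)) q₀).symmL ℝ (chartLine q₀ a t) a : F) =
      mfderivWithin 𝓘(ℝ, F) 𝓘(ℝ, F) (extChartAt 𝓘(ℝ, F) q₀).symm (range 𝓘(ℝ, F))
        (extChartAt 𝓘(ℝ, F) q₀ ((extChartAt 𝓘(ℝ, F) q₀).symm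
        (extChartAt 𝓘(ℝ, F) q₀ q₀ + t • a))) a := h10
    rw [h9] at h11
    have h12 : range 𝓘(ℝ, F) = univ := by simp
    rw [h12, mfderivWithin_univ] at h11
    have h13 := (mfderiv 𝓘(ℝ, F) 𝓘(ℝ, F) (extChartAt 𝓘(ℝ, F) q₀).symm
      (extChartAt 𝓘(ℝ, F) q₀ q₀ + t • a)).map_smul r a
    refine h13.trans ?_
    exact congrArg (fun z : F => r • z) h11.symm
  exact h4.congr_mfderiv h5

lemma hasMFDerivAt_chartLine_zero (q₀ : L) (a : F) :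
    HasMFDerivAt 𝓘(ℝ, ℝ) 𝓘(ℝ, F) (chartLine q₀ a) 0 ((1 : ℝ →L[ℝ] ℝ).smulRight
      (show TangentSpace 𝓘(ℝ, F) (chartLine q₀ a 0) from a)) := by
  have h1 := (hasMFDerivAt_chartLine q₀ a).self_of_nhds
  have h2 : ∀ q : L, q = q₀ →
      ((trivializationAt F (TangentSpace 𝓘(ℝ, F)) q₀).symmL ℝ q a : F) = a := by
    rintro q rfl
    have h3 := TangentBundle.symmL_trivializationAt (I := 𝓘(ℝ, F)) (mem_chart_source F q)
    have h4 := mfderivWithin_range_extChartAt_symm (I := 𝓘(ℝ, F)) (x := q)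
    exact DFunLike.congr_fun (h3.trans h4) a
  have h3 := h2 _ (chartLine_zero q₀ a)
  have h4 : ((1 : ℝ →L[ℝ] ℝ).smulRight
      ((trivializationAt F (TangentSpace 𝓘(ℝ, F)) q₀).symmL ℝ (chartLine q₀ a 0) a)) =
      ((1 : ℝ →L[ℝ] ℝ).smulRight
      (show TangentSpace 𝓘(ℝ, F) (chartLine q₀ a 0) from a)) :=
    congrArg (fun z : F => (1 : ℝ →L[ℝ] ℝ).smulRight z) h3
  exact h1.congr_mfderiv h4

lemma hasDerivAt_of_hasMFDerivAt {f : ℝ → ℝ} {A : ℝ →L[ℝ] ℝ} {t : ℝ}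
    (h : HasMFDerivAt 𝓘(ℝ, ℝ) 𝓘(ℝ, ℝ) f t A) : HasDerivAt f (A 1) t := by
  have h1 : HasFDerivAt f A t := hasMFDerivAt_iff_hasFDerivAt.1 h
  exact h1.hasDerivAt

/-- Derivative of the coordinate of a section along a chart line. -/
lemma hasDerivAt_cotCoord_line {q₀ : L} (a : F) {s : L → Cotangent F L}
    (hs : MDifferentiableAt 𝓘(ℝ, F) (IC F) s q₀) (hs0 : (s q₀).1 = q₀) :
    HasDerivAt (fun t => cotCoord q₀ a (s (chartLine q₀ a t)))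
      ((show F × (F →L[ℝ] ℝ) from mfderiv 𝓘(ℝ, F) (IC F) s q₀ a).2 a) 0 := by
  have h1 := hasMFDerivAt_chartLine_zero q₀ a
  have h2 : chartLine q₀ a 0 = q₀ := chartLine_zero q₀ a
  have h3 : MDifferentiableAt (IC F) 𝓘(ℝ, ℝ) (cotCoord q₀ a : Cotangent F L → ℝ) (s q₀) :=
    (contMDiffAt_cotCoord a (by rw [hs0]; exact mem_chart_source F q₀)).mdifferentiableAt (by simp)
  have h4 : HasMFDerivAt 𝓘(ℝ, F) 𝓘(ℝ, ℝ) (fun q => cotCoord q₀ a (s q)) q₀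
      ((mfderiv (IC F) 𝓘(ℝ, ℝ) (cotCoord q₀ a : Cotangent F L → ℝ) (s q₀)).comp
        (mfderiv 𝓘(ℝ, F) (IC F) s q₀)) := h3.hasMFDerivAt.comp q₀ hs.hasMFDerivAt
  have h5 : HasMFDerivAt 𝓘(ℝ, F) 𝓘(ℝ, ℝ) (fun q => cotCoord q₀ a (s q)) (chartLine q₀ a 0)
      (show TangentSpace 𝓘(ℝ, F) (chartLine q₀ a 0) →L[ℝ] ℝ from
      ((mfderiv (IC F) 𝓘(ℝ, ℝ) (cotCoord q₀ a : Cotangent F L → ℝ) (s q₀)).comp
        (mfderiv 𝓘(ℝ, F) (IC F) s q₀))) := by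
    have h6 : ∀ q : L, q = q₀ → ∀ A : F →L[ℝ] ℝ,
        HasMFDerivAt 𝓘(ℝ, F) 𝓘(ℝ, ℝ) (fun q => cotCoord q₀ a (s q)) q₀ A →
        HasMFDerivAt 𝓘(ℝ, F) 𝓘(ℝ, ℝ) (fun q => cotCoord q₀ a (s q)) q A := by
      rintro q rfl A hA; exact hA
    exact h6 _ h2 _ h4
  have h6 := h5.comp (0:ℝ) h1
  have h7 := hasDerivAt_of_hasMFDerivAt h6
  refine h7.congr_deriv ?_
  have h8 := mfderiv_cotCoord a (s q₀) hs0 (mfderiv 𝓘(ℝ, F) (IC F) s q₀ a)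
  have h9 : ((1 : ℝ →L[ℝ] ℝ).smulRight a) 1 = a := by simp
  refine Eq.trans ?_ h8
  show (mfderiv (IC F) 𝓘(ℝ, ℝ) (cotCoord q₀ a : Cotangent F L → ℝ) (s q₀))
        (mfderiv 𝓘(ℝ, F) (IC F) s q₀ (((1 : ℝ →L[ℝ] ℝ).smulRight a) 1)) = _
  rw [h9]

/-- Derivative of a function along a chart line. -/
lemma eventually_hasDerivAt_line {q₀ : L} (a : F) {f : L → ℝ}
    {θ : (q : L) → TangentSpace 𝓘(ℝ, F) q →L[ℝ] ℝ}
    (hf : ∀ᶠ q in 𝓝 q₀, HasMFDerivAt 𝓘(ℝ, F) 𝓘(ℝ, ℝ) f q (θ q)) :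
    ∀ᶠ t in 𝓝 (0:ℝ), HasDerivAt (fun t => f (chartLine q₀ a t))
      (cotCoord q₀ a ⟨chartLine q₀ a t, θ (chartLine q₀ a t)⟩) t := by
  have h0 : ContinuousAt (chartLine q₀ a) (0:ℝ) :=
    (hasMFDerivAt_chartLine_zero q₀ a).continuousAt
  have h1 : ∀ᶠ t in 𝓝 (0:ℝ),
      HasMFDerivAt 𝓘(ℝ, F) 𝓘(ℝ, ℝ) f (chartLine q₀ a t) (θ (chartLine q₀ a t)) := by
    have h2 : ∀ᶠ q in 𝓝 (chartLine q₀ a 0), HasMFDerivAt 𝓘(ℝ, F) 𝓘(ℝ, ℝ) f q (θ q) := by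
      rw [chartLine_zero]
      exact hf
    exact h0.eventually h2
  filter_upwards [h1, hasMFDerivAt_chartLine q₀ a] with t ht1 ht2
  have h3 := hasDerivAt_of_hasMFDerivAt (ht1.comp t ht2)
  refine h3.congr_deriv ?_
  rw [cotCoord_eq]
  show (θ (chartLine q₀ a t)) ((1:ℝ) •
    ((trivializationAt F (TangentSpace 𝓘(ℝ, F)) q₀).symmL ℝ (chartLine q₀ a t) a)) = _
  rw [one_smul]

end Pool.Agent.Run7.h811
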