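import Mathlib
import Pool.Agent.Helper186.CotForm
import Pool.Agent.Run7.h811.CotChart

/-! A symplectic map and a fibrewise primitive determine a form on the base. -/

open scoped Topology ContDiff Manifold
open Set Metric Bundle

noncomputable section

namespace Pool.Agent.Run7.h811

open Pool.Agent.Helper186

set_option linter.unusedSectionVars false

variable {F : Type*} [NormedAddCommGroup F] [NormedSpace ℝ F] [FiniteDimensional ℝ F]
  {L : Type*} [TopologicalSpace L] [ChartedSpace F L] [IsManifold 𝓘(ℝ, F) ∞ L]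
  {L' : Type*} [TopologicalSpace L'] [ChartedSpace F L'] [IsManifold 𝓘(ℝ, F) ∞ L']

/-- A smooth one-form is a smooth section of the cotangent bundle. -/
lemma contMDiff_section {θ : (q : L) → TangentSpace 𝓘(ℝ, F) q →L[ℝ] ℝ} (hθ : SmoothForm θ) :
    ContMDiff 𝓘(ℝ, F) (IC F) ∞ (fun q => (⟨q, θ q⟩ : Cotangent F L)) := by
  intro q
  refine contMDiffAt_cot_of_pairing (b := fun q : L => q) (θ := θ) contMDiffAt_id ?_
  intro v hv
  exact (hθ _).comp q hv

/-- Local sections through a given covector. -/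
lemma exists_local_section (x : Cotangent F L) :
    ∃ (U : Set L) (σ : L → Cotangent F L), IsOpen U ∧ x.1 ∈ U ∧
      ContMDiffOn 𝓘(ℝ, F) (IC F) ∞ σ U ∧ σ x.1 = x ∧ ∀ q ∈ U, (σ q).1 = q := by
  let e := trivializationAt (F →L[ℝ] ℝ) (fun x : L => TangentSpace 𝓘(ℝ, F) x →L[ℝ] ℝ) x.1
  have hq : x.1 ∈ e.baseSet := mem_baseSet_trivializationAt _ _ x.1
  let a : F →L[ℝ] ℝ := (e x).2
  refine ⟨e.baseSet, fun q' => e.toOpenPartialHomeomorph.symm (q', a), e.open_baseSet, hq,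
    ?_, ?_, fun q' hq' => e.proj_symm_apply' hq'⟩
  · refine (Bundle.Trivialization.contMDiffOn_symm (n := ∞) (IB := 𝓘(ℝ, F)) e).comp
      (contMDiffOn_id.prodMk contMDiffOn_const) ?_
    intro q' hq'
    rw [e.target_eq]
    exact ⟨hq', mem_univ _⟩
  · have h1 : x ∈ e.source := by rw [e.mem_source]; exact hq
    have h2 : e x = (x.1, a) := by
      refine Prod.ext ?_ rfl
      exact e.coe_fst h1
    show e.toOpenPartialHomeomorph.symm (x.1, a) = x
    rw [← h2]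
    exact e.toOpenPartialHomeomorph.left_inv h1

lemma canForm_of_vert {x : Cotangent F L} {V : TangentSpace (IC F) x}
    (hV : mfderiv (IC F) 𝓘(ℝ, F) (TotalSpace.proj : Cotangent F L → L) x V = 0) :
    canForm x V = 0 := by
  show x.2 (mfderiv (IC F) 𝓘(ℝ, F) (TotalSpace.proj : Cotangent F L → L) x V) = 0
  rw [hV, map_zero]

/-- The time derivative of fibrewise scaling is vertical. -/
lemma proj_dS_scal {σ : L → Cotangent F L} (s : ℝ) (q : L) :
    mfderiv (IC F) 𝓘(ℝ, F) (TotalSpace.proj : Cotangent F L → L) (scal s (σ q))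
      (dS (IC F) (fun y : ℝ × L => scal y.1 (σ y.2)) s q) = 0 := by
  have h1 : MDifferentiableAt 𝓘(ℝ, ℝ) (IC F) (fun s : ℝ => scal s (σ q)) s := by
    have h2 : ContMDiff 𝓘(ℝ, ℝ) (IC F) ∞ (fun s : ℝ => scal s (σ q)) :=
      contMDiff_scal.comp (contMDiff_id.prodMk contMDiff_const)
    exact h2.mdifferentiableAt (by simp)
  have h2 := mfderiv_comp (I := 𝓘(ℝ, ℝ)) (I' := IC F) (I'' := 𝓘(ℝ, F)) s
    (contMDiff_projC.mdifferentiableAt (by simp) (x := scal s (σ q))) h1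
  have h3 : ((TotalSpace.proj : Cotangent F L → L) ∘ fun s : ℝ => scal s (σ q)) =
    fun _ => (σ q).1 := rfl
  rw [h3, mfderiv_const] at h2
  exact (DFunLike.congr_fun h2 (1:ℝ)).symm

/-- The projection of the derivative of a section. -/
lemma proj_mfderiv_section {s : L → Cotangent F L} {q : L}
    (hs : MDifferentiableAt 𝓘(ℝ, F) (IC F) s q) (hp : ∀ᶠ q' in 𝓝 q, (s q').1 = q')
    (v : F) : (mfderiv (IC F) 𝓘(ℝ, F) (TotalSpace.proj : Cotangent F L → L) (s q)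
      (mfderiv 𝓘(ℝ, F) (IC F) s q v) : F) = v := by
  have h5 := mfderiv_comp (I := 𝓘(ℝ, F)) (I' := IC F) (I'' := 𝓘(ℝ, F)) q
    (contMDiff_projC.mdifferentiableAt (by simp) (x := s q)) hs
  have h6 : ((TotalSpace.proj : Cotangent F L → L) ∘ s) =ᶠ[𝓝 q] id := hp
  have h8 := DFunLike.congr_fun h5 v
  refine h8.symm.trans ?_
  have h9 := tangentMap_congr_of_eventuallyEq (J := 𝓘(ℝ, F)) (I := 𝓘(ℝ, F))
    (v := (⟨q, v⟩ : TangentBundle 𝓘(ℝ, F) L)) h6
  rw [tangentMap_id] at h9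
  have h10 : ∀ (V W : TangentBundle 𝓘(ℝ, F) L), V = W → (V.2 : F) = (W.2 : F) := by
    rintro V W rfl; rfl
  exact h10 _ _ h9

/-- The form on the base. -/
theorem exists_base_form {φ : Cotangent F L → Cotangent F L'}
    (hφ : ContMDiff (IC F) (IC F) ∞ φ)
    (hsymp : ∀ x (u v : TangentSpace (IC F) x),
      extDer (IC F) (canForm : (ξ : Cotangent F L') → _) (φ x)
        (mfderiv (IC F) (IC F) φ x u) (mfderiv (IC F) (IC F) φ x v) =
      extDer (IC F) (canForm : (ξ : Cotangent F L) → _) x u v)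
    {h : Cotangent F L → ℝ} (hh : ContMDiff (IC F) 𝓘(ℝ, ℝ) ∞ h)
    (hvert : ∀ x (v : TangentSpace (IC F) x),
      mfderiv (IC F) 𝓘(ℝ, F) (TotalSpace.proj : Cotangent F L → L) x v = 0 →
      dForm (IC F) h x v = canForm (φ x) (mfderiv (IC F) (IC F) φ x v)) :
    ∃ β : (q : L) → TangentSpace 𝓘(ℝ, F) q →L[ℝ] ℝ, SmoothForm β ∧
      ∀ x (V : TangentSpace (IC F) x),
        canForm (φ x) (mfderiv (IC F) (IC F) φ x V) = canForm x V + dForm (IC F) h x V +
          β x.1 (mfderiv (IC F) 𝓘(ℝ, F) (TotalSpace.proj : Cotangent F L → L) x V) := by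
  let α₁ : (x : Cotangent F L) → TangentSpace (IC F) x →L[ℝ] ℝ := pullForm (IC F) (IC F) φ canForm
  let α₂ : (x : Cotangent F L) → TangentSpace (IC F) x →L[ℝ] ℝ := fun x => canForm x + dForm (IC F) h x
  have hα₁ : SmoothForm α₁ := smoothForm_pull hφ smoothForm_canForm
  have hα₂ : SmoothForm α₂ := smoothForm_canForm.add (smoothForm_dForm hh)
  have hext : ∀ x (u v : TangentSpace (IC F) x), extDer (IC F) α₁ x u v = extDer (IC F) α₂ x u v := by
    intro x u v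
    rw [extDer_pull hφ smoothForm_canForm, hsymp, extDer_add smoothForm_canForm (smoothForm_dForm hh),
      extDer_dForm hh, add_zero]
  have heq : ∀ x (V : TangentSpace (IC F) x),
      mfderiv (IC F) 𝓘(ℝ, F) (TotalSpace.proj : Cotangent F L → L) x V = 0 → α₁ x V = α₂ x V := by
    intro x V hV
    have h1 : α₂ x V = canForm x V + dForm (IC F) h x V := rfl
    rw [h1, canForm_of_vert hV, zero_add, hvert x V hV]
    rfl
  let β₁ : (q : L) → TangentSpace 𝓘(ℝ, F) q →L[ℝ] ℝ := pullForm (IC F) 𝓘(ℝ, F) zeroC α₁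
  let β₂ : (q : L) → TangentSpace 𝓘(ℝ, F) q →L[ℝ] ℝ := pullForm (IC F) 𝓘(ℝ, F) zeroC α₂
  refine ⟨fun q => β₁ q - β₂ q, ?_, ?_⟩
  · intro V
    exact (smoothForm_pull contMDiff_zeroC hα₁ V).sub (smoothForm_pull contMDiff_zeroC hα₂ V)
  -- the form through a section
  have key : ∀ (x : Cotangent F L) (U : Set L) (σ : L → Cotangent F L), IsOpen U → x.1 ∈ U →
      ContMDiffOn 𝓘(ℝ, F) (IC F) ∞ σ U → σ x.1 = x → (∀ q ∈ U, (σ q).1 = q) →
      ∀ v : F, α₁ (σ x.1) (mfderiv 𝓘(ℝ, F) (IC F) σ x.1 v) -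
        α₂ (σ x.1) (mfderiv 𝓘(ℝ, F) (IC F) σ x.1 v) = β₁ x.1 v - β₂ x.1 v := by
    intro x U σ hU hxU hσ hσx hσp v
    let i : ℝ × L → Cotangent F L := fun y => scal y.1 (σ y.2)
    have hD : IsOpen ((univ : Set ℝ) ×ˢ U) := isOpen_univ.prod hU
    have hi : ContMDiffOn (𝓘(ℝ, ℝ).prod 𝓘(ℝ, F)) (IC F) ∞ i (univ ×ˢ U) :=
      contMDiff_scal.comp_contMDiffOn (contMDiffOn_fst.prodMk
        (hσ.comp contMDiffOn_snd fun x hx => hx.2))
    have hc : ∀ s : ℝ, HasDerivAt (fun s => α₁ (i (s, x.1)) (dX (IC F) 𝓘(ℝ, F) i s x.1 v) -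
        α₂ (i (s, x.1)) (dX (IC F) 𝓘(ℝ, F) i s x.1 v)) 0 s := by
      intro s
      have h1 := hasDerivAt_variation (I := IC F) (J := 𝓘(ℝ, F)) hα₁ hD hi
        (s := s) (x := x.1) ⟨mem_univ _, hxU⟩ v
      have h2 := hasDerivAt_variation (I := IC F) (J := 𝓘(ℝ, F)) hα₂ hD hi
        (s := s) (x := x.1) ⟨mem_univ _, hxU⟩ v
      refine (h1.sub h2).congr_deriv ?_
      rw [hext]
      have h3 : (fun x' => α₁ (i (s, x')) (dS (IC F) i s x')) =
          (fun x' => α₂ (i (s, x')) (dS (IC F) i s x')) := by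
        funext x'
        exact heq _ _ (proj_dS_scal s x')
      rw [h3]
      exact sub_self _
    have h4 := is_const_of_deriv_eq_zero (f := fun s => α₁ (i (s, x.1))
      (dX (IC F) 𝓘(ℝ, F) i s x.1 v) - α₂ (i (s, x.1)) (dX (IC F) 𝓘(ℝ, F) i s x.1 v))
      (fun s => (hc s).differentiableAt) (fun s => (hc s).deriv) 1 0
    have h5 : (fun q' => i (1, q')) = σ := by
      funext q'
      exact scal_one _
    have h6 : (fun q' => i (0, q')) =ᶠ[𝓝 x.1] zeroC := by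
      filter_upwards [hU.mem_nhds hxU] with q' hq'
      show scal 0 (σ q') = zeroC q'
      rw [scal_zero]
      have := hσp q' hq'
      rw [this]
    have h7 : ∀ α : (x : Cotangent F L) → TangentSpace (IC F) x →L[ℝ] ℝ,
        α (i (1, x.1)) (dX (IC F) 𝓘(ℝ, F) i 1 x.1 v) =
        α (σ x.1) (mfderiv 𝓘(ℝ, F) (IC F) σ x.1 v) := by
      intro α
      have h8 : tangentMap 𝓘(ℝ, F) (IC F) (fun q' => i (1, q'))
          (⟨x.1, v⟩ : TangentBundle 𝓘(ℝ, F) L) = tangentMap 𝓘(ℝ, F) (IC F) σ ⟨x.1, v⟩ := by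
        rw [h5]
      exact form_congr' α h8
    have h9 : ∀ α : (x : Cotangent F L) → TangentSpace (IC F) x →L[ℝ] ℝ,
        α (i (0, x.1)) (dX (IC F) 𝓘(ℝ, F) i 0 x.1 v) =
        pullForm (IC F) 𝓘(ℝ, F) zeroC α x.1 v := by
      intro α
      have h8 := tangentMap_congr_of_eventuallyEq (J := 𝓘(ℝ, F)) (I := IC F)
        (v := (⟨x.1, v⟩ : TangentBundle 𝓘(ℝ, F) L)) h6
      exact form_congr' α h8
    have h10 : α₁ (i (1, x.1)) (dX (IC F) 𝓘(ℝ, F) i 1 x.1 v) -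
        α₂ (i (1, x.1)) (dX (IC F) 𝓘(ℝ, F) i 1 x.1 v) =
        α₁ (i (0, x.1)) (dX (IC F) 𝓘(ℝ, F) i 0 x.1 v) -
        α₂ (i (0, x.1)) (dX (IC F) 𝓘(ℝ, F) i 0 x.1 v) := h4
    have h11 := congrArg₂ (fun a b : ℝ => a - b) (h7 α₁) (h7 α₂)
    have h12 := congrArg₂ (fun a b : ℝ => a - b) (h9 α₁) (h9 α₂)
    exact h11.symm.trans (h10.trans h12)
  intro x V
  obtain ⟨U, σ, hU, hxU, hσ, hσx, hσp⟩ := exists_local_section x
  have hσd : MDifferentiableAt 𝓘(ℝ, F) (IC F) σ x.1 :=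
    (hσ.contMDiffAt (hU.mem_nhds hxU)).mdifferentiableAt (by simp)
  set v : F := mfderiv (IC F) 𝓘(ℝ, F) (TotalSpace.proj : Cotangent F L → L) x V with hv
  have h1 := key x U σ hU hxU hσ hσx hσp v
  have h2 := proj_mfderiv_section hσd
    (Filter.eventually_of_mem (hU.mem_nhds hxU) hσp) v
  -- transport to `x`
  have h3 : ∃ W : TangentSpace (IC F) x, α₁ x W - α₂ x W = β₁ x.1 v - β₂ x.1 v ∧
      (mfderiv (IC F) 𝓘(ℝ, F) (TotalSpace.proj : Cotangent F L → L) x W : F) = v := by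
    have h4 : ∀ y : Cotangent F L, y = x → ∀ W : TangentSpace (IC F) y,
        α₁ y W - α₂ y W = β₁ x.1 v - β₂ x.1 v →
        (mfderiv (IC F) 𝓘(ℝ, F) (TotalSpace.proj : Cotangent F L → L) y W : F) = v →
        ∃ W : TangentSpace (IC F) x, α₁ x W - α₂ x W = β₁ x.1 v - β₂ x.1 v ∧
      (mfderiv (IC F) 𝓘(ℝ, F) (TotalSpace.proj : Cotangent F L → L) x W : F) = v := by
      rintro y rfl W h5 h6
      exact ⟨W, h5, h6⟩
    exact h4 _ hσx _ h1 h2
  obtain ⟨W, hW1, hW2⟩ := h3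
  have h5 : mfderiv (IC F) 𝓘(ℝ, F) (TotalSpace.proj : Cotangent F L → L) x (V - W) = 0 := by
    have h5 := (mfderiv (IC F) 𝓘(ℝ, F) (TotalSpace.proj : Cotangent F L → L) x).map_sub V W
    refine h5.trans ?_
    exact sub_eq_zero.2 hW2.symm
  have h6 := heq x (V - W) h5
  rw [(α₁ x).map_sub, (α₂ x).map_sub] at h6
  have h7 : α₂ x V = canForm x V + dForm (IC F) h x V := rfl
  have h8 : canForm (φ x) (mfderiv (IC F) (IC F) φ x V) = α₁ x V := rfl
  rw [h8, ← h7]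
  have h9 : (β₁ x.1 - β₂ x.1) v = β₁ x.1 v - β₂ x.1 v := rfl
  show α₁ x V = α₂ x V + (β₁ x.1 - β₂ x.1) v
  rw [h9]
  linarith

end Pool.Agent.Run7.h811
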