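import Mathlib
import Pool.Agent.Helper186.LocDiffeo
import Pool.Agent.Run7.h811.BaseForm

/-! The leaves of the pulled back cotangent foliation as sections. -/

open scoped Topology ContDiff Manifold
open Set Metric Bundle Filter

noncomputable section

namespace Pool.Agent.Run7.h811

open Pool.Agent.Helper186

set_option linter.unusedSectionVars false

variable {F : Type*} [NormedAddCommGroup F] [NormedSpace ℝ F] [FiniteDimensional ℝ F]
  {L : Type*} [TopologicalSpace L] [ChartedSpace F L] [IsManifold 𝓘(ℝ, F) ∞ L]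
  {L' : Type*} [TopologicalSpace L'] [ChartedSpace F L'] [IsManifold 𝓘(ℝ, F) ∞ L']

/-- The covector part, as a form on the model space. -/
def cov (x : Cotangent F L) : F →L[ℝ] ℝ := x.2

/-- A form on the model space as a covector. -/
def asForm (q : L) (p : F →L[ℝ] ℝ) : TangentSpace 𝓘(ℝ, F) q →L[ℝ] ℝ := p

/-- A covector as a form on the model space. -/
def ofForm {q : L} (θ : TangentSpace 𝓘(ℝ, F) q →L[ℝ] ℝ) : F →L[ℝ] ℝ := θ

/-- The projection of the image. -/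
def rho (φ : Cotangent F L → Cotangent F L') (x : Cotangent F L) : L' := (φ x).1

/-- The pair of projections. -/
def Th (φ : Cotangent F L → Cotangent F L') (x : Cotangent F L) : L × L' := (x.1, (φ x).1)

lemma contMDiff_rho {φ : Cotangent F L → Cotangent F L'} (hφ : ContMDiff (IC F) (IC F) ∞ φ) :
    ContMDiff (IC F) 𝓘(ℝ, F) ∞ (rho φ) := contMDiff_projC.comp hφ

lemma contMDiff_Th {φ : Cotangent F L → Cotangent F L'} (hφ : ContMDiff (IC F) (IC F) ∞ φ) :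
    ContMDiff (IC F) (𝓘(ℝ, F).prod 𝓘(ℝ, F)) ∞ (Th φ) :=
  contMDiff_projC.prodMk (contMDiff_rho hφ)

/-- The leaves near a compact set. -/
structure Leaves (φ : Cotangent F L → Cotangent F L') (K : Set (Cotangent F L)) where
  /-- the neighbourhood -/
  O : Set (Cotangent F L)
  /-- the inverse -/
  X : L × L' → Cotangent F L
  isOpen : IsOpen O
  sub : K ⊆ O
  isOpen_image : IsOpen (Th φ '' O)
  left : ∀ x ∈ O, X (Th φ x) = x
  smooth : ContMDiffOn (𝓘(ℝ, F).prod 𝓘(ℝ, F)) (IC F) ∞ X (Th φ '' O)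

theorem exists_leaves [T2Space L] [T2Space L'] [Nonempty L] {φ : Cotangent F L → Cotangent F L'}
    (hφ : ContMDiff (IC F) (IC F) ∞ φ) {K : Set (Cotangent F L)} (hK : IsCompact K)
    (hinj : ∀ x ∈ K, ∀ y ∈ K, x.1 = y.1 → (φ x).1 = (φ y).1 → x = y)
    (himm : ∀ x ∈ K, ∀ v : TangentSpace (IC F) x,
      mfderiv (IC F) 𝓘(ℝ, F) (TotalSpace.proj : Cotangent F L → L) x v = 0 →
      mfderiv (IC F) 𝓘(ℝ, F) (rho φ) x v = 0 → v = 0) :
    Nonempty (Leaves φ K) := by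
  obtain ⟨q₁⟩ := (inferInstance : Nonempty L)
  have : Nonempty (Cotangent F L) := ⟨zeroC q₁⟩
  have hdim : Module.finrank ℝ (F × (F →L[ℝ] ℝ)) = Module.finrank ℝ (F × F) := by
    have h1 : Module.finrank ℝ (F →L[ℝ] ℝ) = Module.finrank ℝ F := by
      rw [← (LinearMap.toContinuousLinearMap (𝕜 := ℝ) (E := F) (F' := ℝ)).finrank_eq]
      exact Subspace.dual_finrank_eq
    rw [Module.finrank_prod, Module.finrank_prod, h1]
  have hTinj : ∀ x ∈ K, Function.Injective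
      (mfderiv (IC F) (𝓘(ℝ, F).prod 𝓘(ℝ, F)) (Th φ) x) := by
    intro x hx
    have h2 : HasMFDerivAt (IC F) (𝓘(ℝ, F).prod 𝓘(ℝ, F)) (Th φ) x
        ((mfderiv (IC F) 𝓘(ℝ, F) (TotalSpace.proj : Cotangent F L → L) x).prod
          (mfderiv (IC F) 𝓘(ℝ, F) (rho φ) x)) :=
      ((contMDiff_projC.mdifferentiableAt (by simp)).hasMFDerivAt).prodMk
        (((contMDiff_rho hφ).mdifferentiableAt (by simp)).hasMFDerivAt)
    rw [h2.mfderiv]
    have h3 : ∀ v : F × (F →L[ℝ] ℝ),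
        (show F × (F →L[ℝ] ℝ) →L[ℝ] F × F from
          ((mfderiv (IC F) 𝓘(ℝ, F) (TotalSpace.proj : Cotangent F L → L) x).prod
          (mfderiv (IC F) 𝓘(ℝ, F) (rho φ) x))) v = 0 → v = 0 := by
      intro v hv
      exact himm x hx v (congrArg Prod.fst hv) (congrArg Prod.snd hv)
    exact (injective_iff_map_eq_zero (show F × (F →L[ℝ] ℝ) →L[ℝ] F × F from
          ((mfderiv (IC F) 𝓘(ℝ, F) (TotalSpace.proj : Cotangent F L → L) x).prod
          (mfderiv (IC F) 𝓘(ℝ, F) (rho φ) x)))).2 h3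
  obtain ⟨O, X, h1, h2, -, h3, h4, h5⟩ := exists_inverse_near (contMDiff_Th hφ) hK
    (fun x hx y hy hxy => hinj x hx y hy (congrArg Prod.fst hxy) (congrArg Prod.snd hxy))
    hTinj hdim isOpen_univ (subset_univ K)
  exact ⟨⟨O, X, h1, h2, h3, h4, h5⟩⟩

namespace Leaves

variable {φ : Cotangent F L → Cotangent F L'} {K : Set (Cotangent F L)} (Λ : Leaves φ K)

/-- domain of the leaf over `y` -/
def U (y : L') : Set L := {q | (q, y) ∈ Th φ '' Λ.O}

/-- compact part -/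
def KK (_ : Leaves φ K) (y : L') : Set L := {q | (q, y) ∈ Th φ '' K}

/-- interior part -/
def II (_ : Leaves φ K) (y : L') : Set L := {q | (q, y) ∈ Th φ '' (interior K)}

lemma II_sub (y : L') : Λ.II y ⊆ Λ.KK y := fun _ hq => image_mono interior_subset hq

lemma KK_sub (y : L') : Λ.KK y ⊆ Λ.U y := fun _ hq => image_mono Λ.sub hq

lemma isOpen_U (y : L') : IsOpen (Λ.U y) :=
  Λ.isOpen_image.preimage (by fun_prop : Continuous fun q : L => (q, y))

lemma isClosed_KK [T2Space L] [T2Space L'] (hφ : Continuous φ) (hK : IsCompact K) (y : L') :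
    IsClosed (Λ.KK y) := by
  have h1 : Continuous (Th φ) := by
    have h2 : Continuous (TotalSpace.proj : Cotangent F L → L) := contMDiff_projC.continuous
    have h3 : Continuous (TotalSpace.proj : Cotangent F L' → L') := contMDiff_projC.continuous
    exact h2.prodMk (h3.comp hφ)
  exact (hK.image h1).isClosed.preimage (by fun_prop : Continuous fun q : L => (q, y))

include Λ in
lemma isOpen_image_interior : IsOpen (Th φ '' (interior K)) := by
  have h1 : Th φ '' (interior K) = Th φ '' Λ.O ∩ Λ.X ⁻¹' (interior K) := by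
    ext p
    constructor
    · rintro ⟨x, hx, rfl⟩
      have hxO := Λ.sub (interior_subset hx)
      refine ⟨⟨x, hxO, rfl⟩, ?_⟩
      show Λ.X (Th φ x) ∈ interior K
      rw [Λ.left x hxO]
      exact hx
    · rintro ⟨⟨x, hx, rfl⟩, h2⟩
      have h3 : Λ.X (Th φ x) ∈ interior K := h2
      rw [Λ.left x hx] at h3
      exact ⟨x, h3, rfl⟩
  rw [h1]
  exact Λ.smooth.continuousOn.isOpen_inter_preimage Λ.isOpen_image isOpen_interior

lemma isOpen_II (y : L') : IsOpen (Λ.II y) :=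
  Λ.isOpen_image_interior.preimage (by fun_prop : Continuous fun q : L => (q, y))

lemma mem_O {q : L} {y : L'} (h : q ∈ Λ.U y) : Λ.X (q, y) ∈ Λ.O := by
  obtain ⟨x, hx, hxq⟩ := h
  rw [← hxq, Λ.left x hx]
  exact hx

lemma Th_X {q : L} {y : L'} (h : q ∈ Λ.U y) : Th φ (Λ.X (q, y)) = (q, y) := by
  obtain ⟨x, hx, hxq⟩ := h
  rw [← hxq, Λ.left x hx]

lemma X_fst {q : L} {y : L'} (h : q ∈ Λ.U y) : (Λ.X (q, y)).1 = q := congrArg Prod.fst (Λ.Th_X h)

lemma X_rho {q : L} {y : L'} (h : q ∈ Λ.U y) : rho φ (Λ.X (q, y)) = y :=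
  congrArg Prod.snd (Λ.Th_X h)

lemma X_mem_K {q : L} {y : L'} (h : q ∈ Λ.KK y) : Λ.X (q, y) ∈ K := by
  obtain ⟨x, hx, hxq⟩ := h
  rw [← hxq, Λ.left x (Λ.sub hx)]
  exact hx

lemma mem_KK {x : Cotangent F L} (hx : x ∈ K) : x.1 ∈ Λ.KK (rho φ x) := ⟨x, hx, rfl⟩

lemma mem_II {x : Cotangent F L} (hx : x ∈ interior K) : x.1 ∈ Λ.II (rho φ x) := ⟨x, hx, rfl⟩

lemma X_self {x : Cotangent F L} (hx : x ∈ K) : Λ.X (x.1, rho φ x) = x := Λ.left x (Λ.sub hx)

lemma X_frontier (hK : IsClosed K) {q : L} {y : L'} (h : q ∈ Λ.KK y) (h' : q ∉ Λ.II y) :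
    Λ.X (q, y) ∈ frontier K := by
  rw [hK.frontier_eq]
  refine ⟨Λ.X_mem_K h, fun h2 => h' ?_⟩
  exact ⟨Λ.X (q, y), h2, Λ.Th_X (Λ.KK_sub y h)⟩

lemma contMDiffAt_X {q : L} {y : L'} (h : q ∈ Λ.U y) :
    ContMDiffAt 𝓘(ℝ, F) (IC F) ∞ (fun q => Λ.X (q, y)) q := by
  have h1 : ContMDiffAt (𝓘(ℝ, F).prod 𝓘(ℝ, F)) (IC F) ∞ Λ.X (q, y) :=
    Λ.smooth.contMDiffAt (Λ.isOpen_image.mem_nhds h)
  exact h1.comp q (contMDiffAt_id.prodMk contMDiffAt_const)

lemma contMDiffOn_c {h : Cotangent F L → ℝ} (hh : ContMDiff (IC F) 𝓘(ℝ, ℝ) ∞ h) (y : L') :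
    ContMDiffOn 𝓘(ℝ, F) 𝓘(ℝ, ℝ) ∞ (fun q => h (Λ.X (q, y))) (Λ.U y) := by
  intro q hq
  exact ((hh _).comp q (Λ.contMDiffAt_X hq)).contMDiffWithinAt

/-- The differential of the generating function of a leaf. -/
lemma hasMFDerivAt_c (hφ : ContMDiff (IC F) (IC F) ∞ φ) {h : Cotangent F L → ℝ}
    (hh : ContMDiff (IC F) 𝓘(ℝ, ℝ) ∞ h)
    {β : (q : L) → TangentSpace 𝓘(ℝ, F) q →L[ℝ] ℝ}
    (hβ : ∀ x (V : TangentSpace (IC F) x),
        canForm (φ x) (mfderiv (IC F) (IC F) φ x V) = canForm x V + dForm (IC F) h x V +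
          β x.1 (mfderiv (IC F) 𝓘(ℝ, F) (TotalSpace.proj : Cotangent F L → L) x V))
    {q : L} {y : L'} (hq : q ∈ Λ.U y) :
    HasMFDerivAt 𝓘(ℝ, F) 𝓘(ℝ, ℝ) (fun q => h (Λ.X (q, y))) q
      (asForm q (-cov (Λ.X (q, y)) - ofForm (β q))) := by
  have h1 : MDifferentiableAt 𝓘(ℝ, F) (IC F) (fun q => Λ.X (q, y)) q :=
    (Λ.contMDiffAt_X hq).mdifferentiableAt (by simp)
  have h2 : MDifferentiableAt (IC F) 𝓘(ℝ, ℝ) h (Λ.X (q, y)) := hh.mdifferentiableAt (by simp)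
  have h3 := h2.hasMFDerivAt.comp q h1.hasMFDerivAt
  refine h3.congr_mfderiv (ContinuousLinearMap.ext fun v => ?_)
  have hev : ∀ᶠ q' in 𝓝 q, q' ∈ Λ.U y := (Λ.isOpen_U y).mem_nhds hq
  have h4 := hβ (Λ.X (q, y)) (mfderiv 𝓘(ℝ, F) (IC F) (fun q => Λ.X (q, y)) q v)
  -- the left side vanishes
  have h5 : canForm (φ (Λ.X (q, y))) (mfderiv (IC F) (IC F) φ (Λ.X (q, y))
      (mfderiv 𝓘(ℝ, F) (IC F) (fun q => Λ.X (q, y)) q v)) = 0 := by
    have h6 : (fun q' => rho φ (Λ.X (q', y))) =ᶠ[𝓝 q] fun _ => y := by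
      filter_upwards [hev] with q' hq'
      exact Λ.X_rho hq'
    have h7 : MDifferentiableAt (IC F) 𝓘(ℝ, F) (TotalSpace.proj : Cotangent F L' → L')
      (φ (Λ.X (q, y))) := contMDiff_projC.mdifferentiableAt (by simp)
    have h8 : MDifferentiableAt (IC F) (IC F) φ (Λ.X (q, y)) := hφ.mdifferentiableAt (by simp)
    have h9 := (h7.hasMFDerivAt.comp q (h8.hasMFDerivAt.comp q h1.hasMFDerivAt)).mfderiv
    have h10 := h6.mfderiv_eq (I := 𝓘(ℝ, F)) (I' := 𝓘(ℝ, F))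
    rw [mfderiv_const] at h10
    have h11 := DFunLike.congr_fun (h9.symm.trans h10) v
    exact (congrArg (cov (φ (Λ.X (q, y)))) h11).trans (map_zero _)
  have h6 := proj_mfderiv_section h1 (by filter_upwards [hev] with q' hq'; exact Λ.X_fst hq') v
  have h7 : canForm (Λ.X (q, y)) (mfderiv 𝓘(ℝ, F) (IC F) (fun q => Λ.X (q, y)) q v) =
      cov (Λ.X (q, y)) v := congrArg (cov (Λ.X (q, y))) h6
  have h8 : β (Λ.X (q, y)).1 (mfderiv (IC F) 𝓘(ℝ, F) (TotalSpace.proj : Cotangent F L → L)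
      (Λ.X (q, y)) (mfderiv 𝓘(ℝ, F) (IC F) (fun q => Λ.X (q, y)) q v)) = β q v := by
    have h9 : ∀ q' : L, q' = q → ∀ w : F, w = v → β q' w = β q v := by
      rintro q' rfl w rfl; rfl
    exact h9 _ (Λ.X_fst hq) _ h6
  rw [h5, h7, h8] at h4
  have h9 : (asForm q (-cov (Λ.X (q, y)) - ofForm (β q))) v =
    - cov (Λ.X (q, y)) v - β q v := rfl
  refine Eq.trans ?_ h9.symm
  have h10 : dForm (IC F) h (Λ.X (q, y)) (mfderiv 𝓘(ℝ, F) (IC F) (fun q => Λ.X (q, y)) q v) =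
    - cov (Λ.X (q, y)) v - β q v := by linarith
  exact h10

end Leaves

end Pool.Agent.Run7.h811
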