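import Mathlib
import Pool.Agent.Run7.h811.Leaf

/-! Choosing finitely many leaves. -/

open scoped Topology ContDiff Manifold
open Set Metric Bundle Filter

noncomputable section

namespace Pool.Agent.Run7.h811

open Pool.Agent.Helper186

set_option linter.unusedSectionVars false

variable {F : Type*} [NormedAddCommGroup F] [NormedSpace ℝ F] [FiniteDimensional ℝ F]
  {L : Type*} [TopologicalSpace L] [ChartedSpace F L] [IsManifold 𝓘(ℝ, F) ∞ L]
  {L' : Type*} [TopologicalSpace L'] [ChartedSpace F L'] [IsManifold 𝓘(ℝ, F) ∞ L']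

lemma continuous_projC : Continuous (TotalSpace.proj : Cotangent F L → L) :=
  contMDiff_projC.continuous

/-- A minimiser in each fibre. -/
lemma exists_minimiser [T2Space L] {K : Set (Cotangent F L)} (hK : IsCompact K)
    {h : Cotangent F L → ℝ} (hh : Continuous h) {q : L} (hne : ∃ x ∈ K, x.1 = q) :
    ∃ x ∈ K, x.1 = q ∧ ∀ y ∈ K, y.1 = q → h x ≤ h y := by
  have h1 : IsCompact (K ∩ (TotalSpace.proj : Cotangent F L → L) ⁻¹' {q}) :=
    hK.inter_right (isClosed_singleton.preimage continuous_projC)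
  obtain ⟨x₀, hx₀, hx₀q⟩ := hne
  obtain ⟨x, hx, hmin⟩ := h1.exists_isMinOn ⟨x₀, hx₀, hx₀q⟩ hh.continuousOn
  exact ⟨x, hx.1, hx.2, fun y hy hyq => hmin ⟨hy, hyq⟩⟩

/-- Values on compact sets are lower semicontinuous in the fibre. -/
lemma eventually_lt_of_compact [T2Space L] {C : Set (Cotangent F L)} (hC : IsCompact C)
    {h : Cotangent F L → ℝ} (hh : Continuous h) {q₀ : L} {r : ℝ}
    (hr : ∀ y ∈ C, y.1 = q₀ → r < h y) :
    ∀ᶠ q in 𝓝 q₀, ∀ y ∈ C, y.1 = q → r < h y := by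
  have h1 : IsCompact (C ∩ h ⁻¹' (Iic r)) := hC.inter_right (isClosed_Iic.preimage hh)
  have h2 : IsClosed ((TotalSpace.proj : Cotangent F L → L) '' (C ∩ h ⁻¹' (Iic r))) :=
    (h1.image continuous_projC).isClosed
  have h3 : q₀ ∉ (TotalSpace.proj : Cotangent F L → L) '' (C ∩ h ⁻¹' (Iic r)) := by
    rintro ⟨y, ⟨hy, hyr⟩, hyq⟩
    exact absurd (hr y hy hyq) (not_lt.2 hyr)
  filter_upwards [h2.isOpen_compl.mem_nhds h3] with q hq y hy hyq
  by_contra hcon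
  exact hq ⟨y, ⟨hy, not_lt.1 hcon⟩, hyq⟩

/-- Sections through an interior point of a set stay in the set. -/
lemma eventually_section {x₀ : Cotangent F L} {S : Set (Cotangent F L)} (hS : S ∈ 𝓝 x₀) :
    ∀ᶠ q in 𝓝 x₀.1, ∃ x ∈ S, x.1 = q := by
  obtain ⟨U, σ, hU, hxU, hσ, hσx, hσp⟩ := exists_local_section x₀
  have h1 : ContinuousAt σ x₀.1 := (hσ.contMDiffAt (hU.mem_nhds hxU)).continuousAt
  have h2 : ∀ᶠ q in 𝓝 x₀.1, σ q ∈ S := by
    refine h1.eventually ?_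
    rw [hσx]
    exact hS
  filter_upwards [h2, hU.mem_nhds hxU] with q hq hqU
  exact ⟨σ q, hq, hσp q hqU⟩

/-- A uniform gap. -/
lemma exists_gap [T2Space L] [CompactSpace L] {K : Set (Cotangent F L)} (hK : IsCompact K)
    {h : Cotangent F L → ℝ} (hh : Continuous h)
    (hwell : ∀ q : L, ∃ x ∈ K, x.1 = q ∧ ∀ y ∈ frontier K, y.1 = q → h x < h y) :
    ∃ δ > 0, ∀ q : L, ∃ x ∈ K, x.1 = q ∧ ∀ y ∈ frontier K, y.1 = q → h x + 4 * δ < h y := by
  have hKc : IsClosed K := hK.isClosed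
  have hfr : IsCompact (frontier K) := hK.of_isClosed_subset isClosed_frontier
    (hKc.frontier_subset)
  have hloc : ∀ q₀ : L, ∃ δ > 0, ∀ᶠ q in 𝓝 q₀, ∃ x ∈ K, x.1 = q ∧
      ∀ y ∈ frontier K, y.1 = q → h x + 4 * δ < h y := by
    intro q₀
    obtain ⟨x₀, hx₀, hx₀q, hx₀f⟩ := hwell q₀
    have hint : x₀ ∈ interior K := by
      by_contra hcon
      have h1 : x₀ ∈ frontier K := by rw [hKc.frontier_eq]; exact ⟨hx₀, hcon⟩
      exact lt_irrefl _ (hx₀f x₀ h1 hx₀q)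
    obtain ⟨δ, hδ, hδf⟩ : ∃ δ > 0, ∀ y ∈ frontier K, y.1 = q₀ → h x₀ + 8 * δ < h y := by
      by_cases hne : ∃ y ∈ frontier K, y.1 = q₀
      · obtain ⟨y, hy, hyq, hymin⟩ := exists_minimiser hfr hh hne
        have h1 := hx₀f y hy hyq
        refine ⟨(h y - h x₀) / 16, by linarith, fun z hz hzq => ?_⟩
        have := hymin z hz hzq
        linarith
      · exact ⟨1, one_pos, fun y hy hyq => absurd ⟨y, hy, hyq⟩ hne⟩
    refine ⟨δ, hδ, ?_⟩
    have h1 := eventually_lt_of_compact hfr hh hδf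
    have h2 : {x | x ∈ K ∧ h x < h x₀ + δ} ∈ 𝓝 x₀ := by
      have h3 : ∀ᶠ x in 𝓝 x₀, h x < h x₀ + δ :=
        hh.continuousAt.eventually (gt_mem_nhds (by linarith))
      have h4 : ∀ᶠ x in 𝓝 x₀, x ∈ K := mem_interior_iff_mem_nhds.1 hint
      exact h4.and h3
    have h3 := eventually_section h2
    rw [hx₀q] at h3
    filter_upwards [h1, h3] with q hq1 hq2
    obtain ⟨x, ⟨hxK, hxh⟩, hxq⟩ := hq2
    exact ⟨x, hxK, hxq, fun y hy hyq => by linarith [hq1 y hy hyq]⟩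
  have hind := isCompact_univ.induction_on (X := L)
    (p := fun S => ∃ δ > 0, ∀ q ∈ S, ∃ x ∈ K, x.1 = q ∧
      ∀ y ∈ frontier K, y.1 = q → h x + 4 * δ < h y)
    ⟨1, one_pos, fun q hq => absurd hq (notMem_empty q)⟩
    (fun s t hst ⟨δ, hδ, h1⟩ => ⟨δ, hδ, fun q hq => h1 q (hst hq)⟩)
    (fun s t ⟨δ, hδ, h1⟩ ⟨δ', hδ', h2⟩ => ⟨min δ δ', lt_min hδ hδ', fun q hq => by
      rcases hq with hq | hq
      · obtain ⟨x, hx, hxq, hxf⟩ := h1 q hq
        exact ⟨x, hx, hxq, fun y hy hyq => by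
          linarith [hxf y hy hyq, min_le_left δ δ']⟩
      · obtain ⟨x, hx, hxq, hxf⟩ := h2 q hq
        exact ⟨x, hx, hxq, fun y hy hyq => by
          linarith [hxf y hy hyq, min_le_right δ δ']⟩⟩)
    (fun q₀ _ => by
      obtain ⟨δ, hδ, h1⟩ := hloc q₀
      exact ⟨{q | ∃ x ∈ K, x.1 = q ∧ ∀ y ∈ frontier K, y.1 = q → h x + 4 * δ < h y},
        mem_nhdsWithin_of_mem_nhds h1, δ, hδ, fun q hq => hq⟩)
  obtain ⟨δ, hδ, h1⟩ := hind
  exact ⟨δ, hδ, fun q => h1 q (mem_univ q)⟩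

lemma cotCoord_eq_cov (q₀ : L) (a : F) {x : Cotangent F L} {q : L} (hx : x.1 = q) :
    cotCoord q₀ a x = cov x ((trivializationAt F (TangentSpace 𝓘(ℝ, F)) q₀).symmL ℝ q a) := by
  subst hx
  exact cotCoord_eq q₀ a x

lemma symmL_self (q : L) (a : F) :
    ((trivializationAt F (TangentSpace 𝓘(ℝ, F)) q).symmL ℝ q a : F) = a := by
  have h3 := TangentBundle.symmL_trivializationAt (I := 𝓘(ℝ, F)) (mem_chart_source F q)
  have h4 := mfderivWithin_range_extChartAt_symm (I := 𝓘(ℝ, F)) (x := q)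
  exact DFunLike.congr_fun (h3.trans h4) a

/-- The trivialised covector. -/
def tcov (q₀ : L) (x : Cotangent F L) : F →L[ℝ] ℝ :=
  (trivializationAt (F →L[ℝ] ℝ) (fun x : L => TangentSpace 𝓘(ℝ, F) x →L[ℝ] ℝ) q₀ x).2

lemma tcov_apply (q₀ : L) (x : Cotangent F L) (a : F) : tcov q₀ x a = cotCoord q₀ a x := rfl

lemma tcov_self {q₀ : L} {x : Cotangent F L} (hx : x.1 = q₀) : tcov q₀ x = cov x := by
  refine ContinuousLinearMap.ext fun a => ?_
  rw [tcov_apply, cotCoord_eq_cov q₀ a hx]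
  exact congrArg (cov x) (symmL_self q₀ a)

lemma continuousAt_tcov {q₀ : L} {x : Cotangent F L} (hx : x.1 = q₀) :
    ContinuousAt (tcov q₀ : Cotangent F L → F →L[ℝ] ℝ) x := by
  let e := trivializationAt (F →L[ℝ] ℝ) (fun x : L => TangentSpace 𝓘(ℝ, F) x →L[ℝ] ℝ) q₀
  have h1 : x ∈ e.source := by
    rw [e.mem_source]
    show x.1 ∈ e.baseSet
    rw [hx]
    exact mem_baseSet_trivializationAt _ _ q₀
  exact continuousAt_snd.comp (e.toOpenPartialHomeomorph.continuousAt h1)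

/-- Linearly independent covector differences separate nonzero vectors. -/
lemma exists_ne_of_linearIndependent {ι : Type*} [Fintype ι]
    (hcard : Fintype.card ι = Module.finrank ℝ (F →L[ℝ] ℝ)) {p : ι → F →L[ℝ] ℝ}
    (hp : LinearIndependent ℝ p) {a : F} (ha : a ≠ 0) : ∃ i, p i a ≠ 0 := by
  by_contra hcon
  push Not at hcon
  have h1 : Submodule.span ℝ (range p) = ⊤ := hp.span_eq_top_of_card_eq_finrank' hcard
  have h2 : Submodule.span ℝ (range p) ≤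
      LinearMap.ker (ContinuousLinearMap.apply ℝ ℝ a : (F →L[ℝ] ℝ) →L[ℝ] ℝ).toLinearMap := by
    rw [Submodule.span_le]
    rintro _ ⟨i, rfl⟩
    exact hcon i
  rw [h1] at h2
  apply ha
  refine (SeparatingDual.eq_zero_iff_forall_dual_eq_zero (R := ℝ) a).2 fun f => ?_
  exact h2 (Submodule.mem_top : f ∈ ⊤)

/-- Near-minimal leaves in `Y` separate nonzero tangent vectors at `q`. -/
def Rich {φ : Cotangent F L → Cotangent F L'} {K : Set (Cotangent F L)}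
    (Λ : Leaves φ K) (h : Cotangent F L → ℝ) (m : L → ℝ) (δ : ℝ) (Y : Finset L') (q : L) : Prop :=
  (∃ y ∈ Y, q ∈ Λ.II y ∧ h (Λ.X (q, y)) < m q + δ) ∧
      ∀ ξ : F, ξ ≠ 0 → ∃ y ∈ Y, ∃ y' ∈ Y, q ∈ Λ.II y ∧ q ∈ Λ.II y' ∧
        h (Λ.X (q, y)) < m q + δ ∧ h (Λ.X (q, y')) < m q + δ ∧
        cov (Λ.X (q, y)) ξ ≠ cov (Λ.X (q, y')) ξ

lemma exists_rich_local {φ : Cotangent F L → Cotangent F L'} {K : Set (Cotangent F L)}
    (Λ : Leaves φ K) {h : Cotangent F L → ℝ} (hh : Continuous h) (hK : IsCompact K) [T2Space L]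
    {m : L → ℝ} (hm : ∀ y ∈ K, m y.1 ≤ h y) (hm' : ∀ q, ∃ x ∈ K, x.1 = q ∧ h x = m q)
    {δ : ℝ} (hδ : 0 < δ) {x₀ : Cotangent F L} (hx₀ : x₀ ∈ interior K) (hx₀m : h x₀ = m x₀.1) :
    ∃ Y : Finset L', ∀ᶠ q in 𝓝 x₀.1, Rich Λ h m δ Y q := by
  classical
  set q₀ := x₀.1 with hq₀
  -- the basis
  let n := Module.finrank ℝ (F →L[ℝ] ℝ)
  let b := Module.finBasis ℝ (F →L[ℝ] ℝ)
  let xx : ℝ → Fin n → Cotangent F L := fun ε i => incl q₀ (cov x₀ + ε • b i)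
  have hxx0 : ∀ i, xx 0 i = x₀ := by
    intro i
    show incl q₀ (cov x₀ + (0:ℝ) • b i) = x₀
    rw [zero_smul, add_zero]
    rfl
  have hgood : ∀ᶠ x in 𝓝 x₀, x ∈ interior K ∧ h x < m q₀ + δ / 2 := by
    have h1 : ∀ᶠ x in 𝓝 x₀, x ∈ interior K := isOpen_interior.mem_nhds hx₀
    have h2 : ∀ᶠ x in 𝓝 x₀, h x < m q₀ + δ / 2 :=
      hh.continuousAt.eventually (gt_mem_nhds (by linarith))
    exact h1.and h2
  obtain ⟨ε, hε, hεg⟩ : ∃ ε : ℝ, 0 < ε ∧ ∀ i, xx ε i ∈ interior K ∧ h (xx ε i) < m q₀ + δ / 2 := by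
    have h1 : ∀ᶠ ε : ℝ in 𝓝 0, ∀ i, xx ε i ∈ interior K ∧ h (xx ε i) < m q₀ + δ / 2 := by
      rw [Filter.eventually_all]
      intro i
      have h2 : Continuous (fun ε : ℝ => xx ε i) := by
        have h3 : Continuous (incl q₀ : (F →L[ℝ] ℝ) → Cotangent F L) :=
          (contMDiff_incl q₀).continuous
        exact h3.comp (by fun_prop)
      have h3 : ∀ᶠ x in 𝓝 (xx 0 i), x ∈ interior K ∧ h x < m q₀ + δ / 2 := by
        rw [hxx0 i]
        exact hgood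
      exact h2.continuousAt.eventually h3
    obtain ⟨ε, h2, h3⟩ := (h1.and_frequently (frequently_gt_nhds (0:ℝ))).exists
    exact ⟨ε, h3, h2⟩
  let yy : Fin n → L' := fun i => rho φ (xx ε i)
  let y₀ : L' := rho φ x₀
  refine ⟨insert y₀ (Finset.univ.image yy), ?_⟩
  -- lower semicontinuity of the minimum
  have hlsc : ∀ᶠ q in 𝓝 q₀, m q₀ - δ / 2 < m q := by
    have h1 := eventually_lt_of_compact hK hh (q₀ := q₀) (r := m q₀ - δ / 2) (fun y hy hyq => by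
      have := hm y hy
      rw [hyq] at this
      linarith)
    filter_upwards [h1] with q hq
    obtain ⟨x, hx, hxq, hxm⟩ := hm' q
    rw [← hxm]
    exact hq x hx hxq
  -- persistence of leaves
  have hpers : ∀ x : Cotangent F L, x.1 = q₀ → x ∈ interior K → h x < m q₀ + δ / 2 →
      ∀ᶠ q in 𝓝 q₀, q ∈ Λ.II (rho φ x) ∧ h (Λ.X (q, rho φ x)) < m q + δ := by
    intro x hxq hxi hxh
    have h1 : q₀ ∈ Λ.II (rho φ x) := by
      have := Λ.mem_II hxi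
      rwa [hxq] at this
    have h2 : ∀ᶠ q in 𝓝 q₀, q ∈ Λ.II (rho φ x) := (Λ.isOpen_II _).mem_nhds h1
    have h3 : ContinuousAt (fun q => h (Λ.X (q, rho φ x))) q₀ :=
      hh.continuousAt.comp (Λ.contMDiffAt_X (Λ.KK_sub _ (Λ.II_sub _ h1))).continuousAt
    have h4 : Λ.X (q₀, rho φ x) = x := by
      have := Λ.X_self (interior_subset hxi)
      rwa [hxq] at this
    have h5 : ∀ᶠ q in 𝓝 q₀, h (Λ.X (q, rho φ x)) < m q₀ + δ / 2 := by
      refine h3.eventually (gt_mem_nhds ?_)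
      show h (Λ.X (q₀, rho φ x)) < _
      rw [h4]
      exact hxh
    filter_upwards [h2, h5, hlsc] with q hq2 hq5 hql
    exact ⟨hq2, by linarith⟩
  have hx₀h : h x₀ < m q₀ + δ / 2 := by rw [hx₀m]; linarith
  have hev0 := hpers x₀ rfl hx₀ hx₀h
  have hevi : ∀ᶠ q in 𝓝 q₀, ∀ i, q ∈ Λ.II (yy i) ∧ h (Λ.X (q, yy i)) < m q + δ := by
    rw [Filter.eventually_all]
    exact fun i => hpers _ rfl (hεg i).1 (hεg i).2
  -- linear independence
  let Ψ : L → Fin n → F →L[ℝ] ℝ := fun q i => tcov q₀ (Λ.X (q, yy i)) - tcov q₀ (Λ.X (q, y₀))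
  have hXc : ∀ x : Cotangent F L, x.1 = q₀ → x ∈ interior K →
      ContinuousAt (fun q => tcov q₀ (Λ.X (q, rho φ x))) q₀ ∧ Λ.X (q₀, rho φ x) = x := by
    intro x hxq hxi
    have h1 : q₀ ∈ Λ.II (rho φ x) := by
      have := Λ.mem_II hxi
      rwa [hxq] at this
    have h4 : Λ.X (q₀, rho φ x) = x := by
      have := Λ.X_self (interior_subset hxi)
      rwa [hxq] at this
    refine ⟨?_, h4⟩
    have h5 : ContinuousAt (fun q => Λ.X (q, rho φ x)) q₀ :=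
      (Λ.contMDiffAt_X (Λ.KK_sub _ (Λ.II_sub _ h1))).continuousAt
    have h6 : ContinuousAt (tcov q₀ : Cotangent F L → F →L[ℝ] ℝ) (Λ.X (q₀, rho φ x)) :=
      continuousAt_tcov (by rw [h4]; exact hxq)
    exact ContinuousAt.comp (f := fun q => Λ.X (q, rho φ x)) h6 h5
  have hΨc : ContinuousAt Ψ q₀ := by
    rw [continuousAt_pi]
    intro i
    exact (hXc (xx ε i) rfl (hεg i).1).1.sub (hXc x₀ rfl hx₀).1
  have hΨ0 : Ψ q₀ = fun i => ε • b i := by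
    funext i
    show tcov q₀ (Λ.X (q₀, yy i)) - tcov q₀ (Λ.X (q₀, y₀)) = ε • b i
    have e1 : Λ.X (q₀, yy i) = xx ε i := (hXc (xx ε i) rfl (hεg i).1).2
    have e2 : Λ.X (q₀, y₀) = x₀ := (hXc x₀ rfl hx₀).2
    have e3 : tcov q₀ (xx ε i) = cov (xx ε i) := tcov_self rfl
    have e4 : tcov q₀ x₀ = cov x₀ := tcov_self rfl
    rw [e1, e2, e3, e4]
    show (cov x₀ + ε • b i) - cov x₀ = ε • b i
    abel
  have hΨli : LinearIndependent ℝ (Ψ q₀) := by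
    rw [hΨ0]
    have := b.linearIndependent.units_smul (fun _ => Units.mk0 ε hε.ne')
    exact this
  have hli : ∀ᶠ q in 𝓝 q₀, LinearIndependent ℝ (Ψ q) :=
    hΨc.eventually (isOpen_setOfPred_linearIndependent.mem_nhds hΨli)
  have hbase : ∀ᶠ q in 𝓝 q₀, q ∈ (trivializationAt F (TangentSpace 𝓘(ℝ, F)) q₀).baseSet :=
    (trivializationAt F (TangentSpace 𝓘(ℝ, F)) q₀).open_baseSet.mem_nhds
      (mem_baseSet_trivializationAt _ _ q₀)
  filter_upwards [hev0, hevi, hli, hbase] with q hq0 hqi hqli hqb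
  refine ⟨⟨y₀, Finset.mem_insert_self _ _, hq0⟩, fun ξ hξ => ?_⟩
  set a : F := (trivializationAt F (TangentSpace 𝓘(ℝ, F)) q₀).continuousLinearMapAt ℝ q ξ with ha
  have hsa : ((trivializationAt F (TangentSpace 𝓘(ℝ, F)) q₀).symmL ℝ q a : F) = ξ :=
    (trivializationAt F (TangentSpace 𝓘(ℝ, F)) q₀).symmL_continuousLinearMapAt (R := ℝ) hqb ξ
  have ha0 : a ≠ 0 := by
    intro h0
    apply hξ
    rw [← hsa, h0]
    exact map_zero _
  obtain ⟨i, hi⟩ := exists_ne_of_linearIndependent (by simp [n]) hqli ha0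
  refine ⟨yy i, Finset.mem_insert_of_mem (Finset.mem_image_of_mem _ (Finset.mem_univ i)),
    y₀, Finset.mem_insert_self _ _, (hqi i).1, hq0.1, (hqi i).2, hq0.2, ?_⟩
  intro hcon
  apply hi
  have h1 : Ψ q i a = cotCoord q₀ a (Λ.X (q, yy i)) - cotCoord q₀ a (Λ.X (q, y₀)) := rfl
  rw [h1, cotCoord_eq_cov q₀ a (Λ.X_fst (Λ.KK_sub _ (Λ.II_sub _ (hqi i).1))),
    cotCoord_eq_cov q₀ a (Λ.X_fst (Λ.KK_sub _ (Λ.II_sub _ hq0.1)))]
  have h2 : ∀ w : F, w = ξ → cov (Λ.X (q, yy i)) w - cov (Λ.X (q, y₀)) w = 0 := by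
    rintro w rfl
    exact sub_eq_zero.2 hcon
  exact h2 _ hsa

lemma Rich.mono {φ : Cotangent F L → Cotangent F L'} {K : Set (Cotangent F L)}
    {Λ : Leaves φ K} {h : Cotangent F L → ℝ} {m : L → ℝ} {δ : ℝ} {Y Y' : Finset L'} {q : L}
    (hY : Y ⊆ Y') (hR : Rich Λ h m δ Y q) : Rich Λ h m δ Y' q := by
  obtain ⟨⟨y, hy, h1⟩, h2⟩ := hR
  refine ⟨⟨y, hY hy, h1⟩, fun ξ hξ => ?_⟩
  obtain ⟨y, hy, y', hy', h3⟩ := h2 ξ hξ
  exact ⟨y, hY hy, y', hY hy', h3⟩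

lemma exists_rich [T2Space L] [CompactSpace L] {φ : Cotangent F L → Cotangent F L'}
    {K : Set (Cotangent F L)}
    (Λ : Leaves φ K) {h : Cotangent F L → ℝ} (hh : Continuous h) (hK : IsCompact K)
    {m : L → ℝ} (hm : ∀ y ∈ K, m y.1 ≤ h y) (hm' : ∀ q, ∃ x ∈ K, x.1 = q ∧ h x = m q)
    {δ : ℝ} (hδ : 0 < δ) (hint : ∀ x ∈ K, h x = m x.1 → x ∈ interior K) :
    ∃ Y : Finset L', ∀ q, Rich Λ h m δ Y q := by
  classical
  have hloc : ∀ q₀ : L, ∃ Y : Finset L', ∀ᶠ q in 𝓝 q₀, Rich Λ h m δ Y q := by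
    intro q₀
    obtain ⟨x₀, hx₀, rfl, hx₀m⟩ := hm' q₀
    exact exists_rich_local Λ hh hK hm hm' hδ (hint x₀ hx₀ hx₀m) hx₀m
  have hind := isCompact_univ.induction_on (X := L)
    (p := fun S => ∃ Y : Finset L', ∀ q ∈ S, Rich Λ h m δ Y q)
    ⟨∅, fun q hq => absurd hq (notMem_empty q)⟩
    (fun s t hst ⟨Y, h1⟩ => ⟨Y, fun q hq => h1 q (hst hq)⟩)
    (fun s t ⟨Y, h1⟩ ⟨Y', h2⟩ => ⟨Y ∪ Y', fun q hq => by
      rcases hq with hq | hq
      · exact (h1 q hq).mono Finset.subset_union_left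
      · exact (h2 q hq).mono Finset.subset_union_right⟩)
    (fun q₀ _ => by
      obtain ⟨Y, h1⟩ := hloc q₀
      exact ⟨{q | Rich Λ h m δ Y q}, mem_nhdsWithin_of_mem_nhds h1, Y, fun q hq => hq⟩)
  obtain ⟨Y, h1⟩ := hind
  exact ⟨Y, fun q => h1 q (mem_univ q)⟩

end Pool.Agent.Run7.h811
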