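import Mathlib
import Pool.Agent.Helper186.LocDiffeo
import Pool.Agent.Helper186.Cutoff

/-! A smooth implicit function theorem on `L × ℝ`. -/

open scoped Topology ContDiff Manifold
open Set Metric Bundle Filter

noncomputable section

namespace Pool.Agent.Run7.h811

open Pool.Agent.Helper186

set_option linter.unusedSectionVars false

variable {F : Type*} [NormedAddCommGroup F] [NormedSpace ℝ F] [FiniteDimensional ℝ F]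
  {L : Type*} [TopologicalSpace L] [ChartedSpace F L] [IsManifold 𝓘(ℝ, F) ∞ L]
  [T2Space L] [CompactSpace L]

theorem implicit_smooth {f : L × ℝ → ℝ} {W : Set (L × ℝ)} (hW : IsOpen W)
    (hf : ContMDiffOn (𝓘(ℝ, F).prod 𝓘(ℝ, ℝ)) 𝓘(ℝ, ℝ) ∞ f W) {q₀ : L} {s₀ a f' : ℝ}
    (hmem : (q₀, s₀) ∈ W) (hfa : f (q₀, s₀) = a)
    (hd : HasDerivAt (fun s => f (q₀, s)) f' s₀) (hne : f' ≠ 0) {ψ : L → ℝ}
    (huniq : ∀ q s, (q, s) ∈ W → f (q, s) = a → s = ψ q) :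
    ContMDiffAt 𝓘(ℝ, F) 𝓘(ℝ, ℝ) ∞ ψ q₀ := by
  obtain ⟨f₁, K', hf₁, -, -, hf₁eq, -⟩ := exists_extension (I := 𝓘(ℝ, F).prod 𝓘(ℝ, ℝ))
    (isCompact_singleton (x := (q₀, s₀))) hW (singleton_subset_iff.2 hmem) hf
  rw [nhdsSet_singleton] at hf₁eq
  set w : L × ℝ → L × ℝ := fun p => (p.1, f₁ p) with hw
  have hws : ContMDiff (𝓘(ℝ, F).prod 𝓘(ℝ, ℝ)) (𝓘(ℝ, F).prod 𝓘(ℝ, ℝ)) ∞ w :=
    contMDiff_fst.prodMk hf₁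
  have hf₁0 : f₁ (q₀, s₀) = a := hf₁eq.self_of_nhds.trans hfa
  have hd₁ : HasDerivAt (fun s => f₁ (q₀, s)) f' s₀ := by
    refine hd.congr_of_eventuallyEq ?_
    have h1 : ContinuousAt (fun s : ℝ => (q₀, s)) s₀ := by fun_prop
    exact h1.eventually hf₁eq
  have hinj : Function.Injective
      (mfderiv (𝓘(ℝ, F).prod 𝓘(ℝ, ℝ)) (𝓘(ℝ, F).prod 𝓘(ℝ, ℝ)) w (q₀, s₀)) := by
    have h1 : MDifferentiableAt (𝓘(ℝ, F).prod 𝓘(ℝ, ℝ)) 𝓘(ℝ, ℝ) f₁ (q₀, s₀) :=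
      hf₁.mdifferentiableAt (by simp)
    have h2 : HasMFDerivAt (𝓘(ℝ, F).prod 𝓘(ℝ, ℝ)) (𝓘(ℝ, F).prod 𝓘(ℝ, ℝ)) w (q₀, s₀)
        ((ContinuousLinearMap.fst ℝ F ℝ).prod
          (mfderiv (𝓘(ℝ, F).prod 𝓘(ℝ, ℝ)) 𝓘(ℝ, ℝ) f₁ (q₀, s₀))) :=
      (hasMFDerivAt_fst (x := (q₀, s₀))).prodMk h1.hasMFDerivAt
    rw [h2.mfderiv]
    have h3 : ∀ u : F × ℝ, ((ContinuousLinearMap.fst ℝ F ℝ).prod
          (show F × ℝ →L[ℝ] ℝ from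
            mfderiv (𝓘(ℝ, F).prod 𝓘(ℝ, ℝ)) 𝓘(ℝ, ℝ) f₁ (q₀, s₀))) u = 0 → u = 0 := by
      rintro ⟨v, r⟩ h
      have h4 : v = 0 := congrArg Prod.fst h
      have h5 : (show F × ℝ →L[ℝ] ℝ from
            mfderiv (𝓘(ℝ, F).prod 𝓘(ℝ, ℝ)) 𝓘(ℝ, ℝ) f₁ (q₀, s₀)) (v, r) = 0 :=
        congrArg Prod.snd h
      have h6 : HasMFDerivAt 𝓘(ℝ, ℝ) (𝓘(ℝ, F).prod 𝓘(ℝ, ℝ)) (fun s : ℝ => (q₀, s)) s₀
          (ContinuousLinearMap.inr ℝ F ℝ) := by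
        exact (hasMFDerivAt_const q₀ s₀).prodMk (hasMFDerivAt_id s₀)
      have h7 : HasMFDerivAt 𝓘(ℝ, ℝ) 𝓘(ℝ, ℝ) (fun s : ℝ => f₁ (q₀, s)) s₀
          ((show F × ℝ →L[ℝ] ℝ from
            mfderiv (𝓘(ℝ, F).prod 𝓘(ℝ, ℝ)) 𝓘(ℝ, ℝ) f₁ (q₀, s₀)).comp
            (ContinuousLinearMap.inr ℝ F ℝ)) :=
        HasMFDerivAt.comp s₀ h1.hasMFDerivAt h6
      have h8 : HasFDerivAt (fun s : ℝ => f₁ (q₀, s))
          ((show F × ℝ →L[ℝ] ℝ from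
            mfderiv (𝓘(ℝ, F).prod 𝓘(ℝ, ℝ)) 𝓘(ℝ, ℝ) f₁ (q₀, s₀)).comp
            (ContinuousLinearMap.inr ℝ F ℝ)) s₀ := hasMFDerivAt_iff_hasFDerivAt.1 h7
      have h9 := hd₁.unique h8.hasDerivAt
      have h10 : (show F × ℝ →L[ℝ] ℝ from
            mfderiv (𝓘(ℝ, F).prod 𝓘(ℝ, ℝ)) 𝓘(ℝ, ℝ) f₁ (q₀, s₀)) (0, 1) = f' := h9.symm
      have h11 : (show F × ℝ →L[ℝ] ℝ from
            mfderiv (𝓘(ℝ, F).prod 𝓘(ℝ, ℝ)) 𝓘(ℝ, ℝ) f₁ (q₀, s₀)) (v, r) = r * f' := by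
        have h12 : ((v, r) : F × ℝ) = r • ((0:F), (1:ℝ)) := by
          rw [h4]
          simp
        rw [h12, map_smul, h10, smul_eq_mul]
      rw [h11] at h5
      have h12 : r = 0 := by
        rcases mul_eq_zero.1 h5 with h | h
        · exact h
        · exact absurd h hne
      rw [h4, h12]
      rfl
    exact (injective_iff_map_eq_zero ((ContinuousLinearMap.fst ℝ F ℝ).prod
          (show F × ℝ →L[ℝ] ℝ from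
            mfderiv (𝓘(ℝ, F).prod 𝓘(ℝ, ℝ)) 𝓘(ℝ, ℝ) f₁ (q₀, s₀)))).2 h3
  obtain ⟨S, v, hSo, hmS, hinv, hopen, hv⟩ := local_inverse hws hinj rfl
  -- the good neighbourhood
  have hev : ∀ᶠ p in 𝓝 (q₀, s₀), p ∈ S ∧ p ∈ W ∧ f₁ p = f p := by
    have e1 : ∀ᶠ p in 𝓝 (q₀, s₀), p ∈ S := hSo.mem_nhds hmS
    have e2 : ∀ᶠ p in 𝓝 (q₀, s₀), p ∈ W := hW.mem_nhds hmem
    exact e1.and (e2.and hf₁eq)
  obtain ⟨S₁, hS₁sub, hS₁o, hS₁m⟩ := _root_.mem_nhds_iff.1 hev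
  have h1 : IsOpen (w '' S₁) := hopen S₁ (fun p hp => (hS₁sub hp).1) hS₁o
  have h2 : (q₀, a) ∈ w '' S₁ := ⟨(q₀, s₀), hS₁m, by rw [hw]; simp only; rw [hf₁0]⟩
  have h3 : ∀ᶠ q in 𝓝 q₀, (q, a) ∈ w '' S₁ := by
    have h4 : ContinuousAt (fun q : L => (q, a)) q₀ := by fun_prop
    exact h4.eventually (h1.mem_nhds h2)
  have h4 : ψ =ᶠ[𝓝 q₀] fun q => (v (q, a)).2 := by
    filter_upwards [h3] with q hq
    obtain ⟨⟨q', s'⟩, hp, hpq⟩ := hq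
    have h5 : q' = q := congrArg Prod.fst hpq
    have h6 : f₁ (q', s') = a := congrArg Prod.snd hpq
    subst h5
    have h7 := hS₁sub hp
    have h8 : s' = ψ q' := huniq q' s' h7.2.1 (h7.2.2.symm.trans h6)
    have h9 := hinv (q', s') h7.1
    rw [← hpq, h9]
    exact h8.symm
  have h5 : ContMDiffAt (𝓘(ℝ, F).prod 𝓘(ℝ, ℝ)) (𝓘(ℝ, F).prod 𝓘(ℝ, ℝ)) ∞ v (q₀, a) := by
    have h6 := hv (q₀, s₀) hmS
    have h7 : w (q₀, s₀) = (q₀, a) := by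
      rw [hw]
      simp only
      rw [hf₁0]
    rw [h7] at h6
    exact h6
  have h6 : ContMDiffAt 𝓘(ℝ, F) 𝓘(ℝ, ℝ) ∞ (fun q => (v (q, a)).2) q₀ := by
    have h7 : ContMDiffAt 𝓘(ℝ, F) (𝓘(ℝ, F).prod 𝓘(ℝ, ℝ)) ∞ (fun q : L => (q, a)) q₀ :=
      contMDiffAt_id.prodMk contMDiffAt_const
    exact contMDiffAt_snd.comp q₀ (h5.comp q₀ h7)
  exact h6.congr_of_eventuallyEq h4

end Pool.Agent.Run7.h811
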