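import Mathlib

/-! A steep smooth convex profile. -/

open scoped Topology ContDiff
open Set

noncomputable section

namespace Pool.Agent.Run7.h811

/-- The profile. -/
def prof (k : ℝ) (s : ℝ) : ℝ := Real.exp (-k * s) * expNegInvGlue (-s)

lemma prof_contDiff (k : ℝ) : ContDiff ℝ ∞ (prof k) := by
  unfold prof
  exact (Real.contDiff_exp.comp (contDiff_const.mul contDiff_id)).mul
    (expNegInvGlue.contDiff.comp contDiff_neg)

lemma prof_of_nonneg (k : ℝ) {s : ℝ} (hs : 0 ≤ s) : prof k s = 0 := by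
  unfold prof
  rw [expNegInvGlue.zero_of_nonpos (by linarith), mul_zero]

lemma prof_of_neg (k : ℝ) {s : ℝ} (hs : s < 0) : prof k s = Real.exp (-k * s + s⁻¹) := by
  unfold prof expNegInvGlue
  rw [if_neg (by linarith), Real.exp_add, inv_neg, neg_neg]

lemma prof_pos (k : ℝ) {s : ℝ} (hs : s < 0) : 0 < prof k s := by
  rw [prof_of_neg k hs]; exact Real.exp_pos _

lemma prof_hasDerivAt_neg (k : ℝ) {s : ℝ} (hs : s < 0) :
    HasDerivAt (prof k) ((-k - s⁻¹ ^ 2) * Real.exp (-k * s + s⁻¹)) s := by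
  have h1 : prof k =ᶠ[𝓝 s] fun s => Real.exp (-k * s + s⁻¹) := by
    filter_upwards [Iio_mem_nhds hs] with t ht
    exact prof_of_neg k ht
  have h2 : HasDerivAt (fun s : ℝ => -k * s + s⁻¹) (-k * 1 + (-(s ^ 2)⁻¹)) s :=
    ((hasDerivAt_id s).const_mul (-k)).add (hasDerivAt_inv hs.ne)
  have h3 := h2.exp
  refine (h3.congr_of_eventuallyEq h1).congr_deriv ?_
  rw [inv_pow]
  ring

lemma prof_deriv_neg (k : ℝ) {s : ℝ} (hs : s < 0) :
    deriv (prof k) s = (-k - s⁻¹ ^ 2) * Real.exp (-k * s + s⁻¹) :=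
  (prof_hasDerivAt_neg k hs).deriv

lemma prof_deriv2_neg (k : ℝ) {s : ℝ} (hs : s < 0) :
    deriv (deriv (prof k)) s =
      (2 * s⁻¹ ^ 3 + (k + s⁻¹ ^ 2) ^ 2) * Real.exp (-k * s + s⁻¹) := by
  have h1 : deriv (prof k) =ᶠ[𝓝 s] fun s => (-k - s⁻¹ ^ 2) * Real.exp (-k * s + s⁻¹) := by
    filter_upwards [Iio_mem_nhds hs] with t ht
    exact prof_deriv_neg k ht
  have h2 : HasDerivAt (fun s : ℝ => -k * s + s⁻¹) (-k * 1 + (-(s ^ 2)⁻¹)) s :=
    ((hasDerivAt_id s).const_mul (-k)).add (hasDerivAt_inv hs.ne)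
  have h3 := h2.exp
  have h4 : HasDerivAt (fun s : ℝ => -k - s⁻¹ ^ 2) (0 - (2 : ℕ) * s⁻¹ ^ (2 - 1) * (-(s ^ 2)⁻¹)) s :=
    (hasDerivAt_const s (-k)).sub ((hasDerivAt_inv hs.ne).pow 2)
  have h5 := (h4.mul h3).congr_of_eventuallyEq h1
  rw [h5.deriv, ← inv_pow]
  push_cast
  ring

/-- A differentiable function vanishing to the right has zero derivative. -/
lemma deriv_eq_zero_of_right {f : ℝ → ℝ} {s : ℝ} (hf : DifferentiableAt ℝ f s)
    (h0 : ∀ t, s ≤ t → f t = 0) : deriv f s = 0 := by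
  have h1 : HasDerivWithinAt f (deriv f s) (Ici s) s := hf.hasDerivAt.hasDerivWithinAt
  have h2 : HasDerivWithinAt f 0 (Ici s) s :=
    (hasDerivWithinAt_const s (Ici s) (0:ℝ)).congr (fun t ht => h0 t ht) (h0 s le_rfl)
  exact (uniqueDiffOn_Ici s s self_mem_Ici).eq_deriv _ h1 h2

lemma prof_differentiable (k : ℝ) : Differentiable ℝ (prof k) :=
  (prof_contDiff k).differentiable (by simp)

lemma prof_deriv_contDiff (k : ℝ) : ContDiff ℝ ∞ (deriv (prof k)) :=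
  (contDiff_infty_iff_deriv.1 (prof_contDiff k)).2

lemma prof_deriv_nonneg (k : ℝ) {s : ℝ} (hs : 0 ≤ s) : deriv (prof k) s = 0 :=
  deriv_eq_zero_of_right (prof_differentiable k s) (fun _ ht => prof_of_nonneg k (hs.trans ht))

lemma prof_deriv2_nonneg (k : ℝ) {s : ℝ} (hs : 0 ≤ s) : deriv (deriv (prof k)) s = 0 :=
  deriv_eq_zero_of_right (((prof_deriv_contDiff k).differentiable (by simp)) s)
    (fun _ ht => prof_deriv_nonneg k (hs.trans ht))

lemma prof_deriv_lt {k : ℝ} (hk : 1 ≤ k) {s : ℝ} (hs : s < 0) : deriv (prof k) s < 0 := by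
  rw [prof_deriv_neg k hs]
  have h1 := Real.exp_pos (-k * s + s⁻¹)
  have h2 : -k - s⁻¹ ^ 2 < 0 := by nlinarith [sq_nonneg (s⁻¹)]
  exact mul_neg_of_neg_of_pos h2 h1

lemma prof_deriv_le {k : ℝ} (hk : 1 ≤ k) (s : ℝ) : deriv (prof k) s ≤ 0 := by
  rcases lt_or_ge s 0 with h | h
  · exact (prof_deriv_lt hk h).le
  · exact (prof_deriv_nonneg k h).le

lemma prof_antitone {k : ℝ} (hk : 1 ≤ k) : Antitone (prof k) :=
  antitone_of_deriv_nonpos (prof_differentiable k) (prof_deriv_le hk)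

lemma prof_convex {k : ℝ} (hk : 1 ≤ k) (s : ℝ) :
    k * (-deriv (prof k) s) ≤ deriv (deriv (prof k)) s := by
  rcases lt_or_ge s 0 with h | h
  · rw [prof_deriv_neg k h, prof_deriv2_neg k h]
    set r := s⁻¹
    have h1 := Real.exp_pos (-k * s + r)
    have h2 : k * (k + r ^ 2) ≤ 2 * r ^ 3 + (k + r ^ 2) ^ 2 := by
      nlinarith [mul_nonneg (sq_nonneg r) (sq_nonneg (r + 1)),
        mul_nonneg (sq_nonneg r) (sub_nonneg.2 hk)]
    calc k * (-((-k - r ^ 2) * Real.exp (-k * s + r)))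
        = (k * (k + r ^ 2)) * Real.exp (-k * s + r) := by ring
      _ ≤ _ := mul_le_mul_of_nonneg_right h2 h1.le
  · rw [prof_deriv_nonneg k h, prof_deriv2_nonneg k h]
    simp

/-- The profile is steep. -/
lemma prof_steep {N δ : ℝ} (hδ : 0 < δ) (κ : ℝ) :
    ∃ k, 1 ≤ k ∧ κ < k ∧ N * prof k (-δ) ≤ prof k (-(2 * δ)) := by
  obtain ⟨k, hk1, hk2, hk3⟩ : ∃ k : ℝ, 1 ≤ k ∧ κ < k ∧ N ≤ Real.exp (k * δ) := by
    refine ⟨max (max 1 (κ + 1)) (N / δ), ?_, ?_, ?_⟩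
    · exact (le_max_left _ _).trans (le_max_left _ _)
    · exact (lt_add_one κ).trans_le ((le_max_right _ _).trans (le_max_left _ _))
    · have h1 : N / δ * δ ≤ max (max 1 (κ + 1)) (N / δ) * δ :=
        mul_le_mul_of_nonneg_right (le_max_right _ _) hδ.le
      rw [div_mul_cancel₀ _ hδ.ne'] at h1
      have h2 := Real.add_one_le_exp (max (max 1 (κ + 1)) (N / δ) * δ)
      linarith
  refine ⟨k, hk1, hk2, ?_⟩
  rw [prof_of_neg k (by linarith : -δ < 0), prof_of_neg k (by linarith : -(2 * δ) < 0)]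
  have h1 : Real.exp (-k * -(2 * δ) + (-(2 * δ))⁻¹) =
      Real.exp (k * δ + (δ⁻¹ - (2 * δ)⁻¹)) * Real.exp (-k * -δ + (-δ)⁻¹) := by
    rw [← Real.exp_add]
    congr 1
    rw [inv_neg, inv_neg]
    ring
  rw [h1]
  refine mul_le_mul_of_nonneg_right (hk3.trans (Real.exp_le_exp.2 ?_)) (Real.exp_pos _).le
  have h2 : (2 * δ)⁻¹ ≤ δ⁻¹ := inv_anti₀ hδ (by linarith)
  linarith

end Pool.Agent.Run7.h811
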