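import Mathlib
import Pool.Agent.Run7.h811.Implicit
import Pool.Agent.Run7.h811.Profile

/-! The soft minimum of a locally defined finite family. -/

open scoped Topology ContDiff Manifold
open Set Metric Bundle Filter

noncomputable section

namespace Pool.Agent.Run7.h811

open Pool.Agent.Helper186

set_option linter.unusedSectionVars false

lemma prof_strictAntiOn {k : ℝ} (hk : 1 ≤ k) : StrictAntiOn (prof k) (Iic 0) := by
  refine strictAntiOn_of_deriv_neg (convex_Iic 0) (prof_contDiff k).continuous.continuousOn ?_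
  intro s hs
  rw [interior_Iic] at hs
  exact prof_deriv_lt hk hs

lemma prof_nonneg (k s : ℝ) : 0 ≤ prof k s := by
  rcases lt_or_ge s 0 with h | h
  · exact (prof_pos k h).le
  · exact (prof_of_nonneg k h).ge

lemma neg_of_prof_pos {k s : ℝ} (h : 0 < prof k s) : s < 0 := by
  by_contra hs
  rw [prof_of_nonneg k (not_lt.1 hs)] at h
  exact lt_irrefl _ h

variable {F : Type*} [NormedAddCommGroup F] [NormedSpace ℝ F] [FiniteDimensional ℝ F]
  {L : Type*} [TopologicalSpace L] [ChartedSpace F L] [IsManifold 𝓘(ℝ, F) ∞ L]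
  [T2Space L] [CompactSpace L]

open Classical in
/-- The sum of the profiles. -/
def softSum {ι : Type*} (Y : Finset ι) (K : ι → Set L) (c : ι → L → ℝ) (k : ℝ) (q : L) (s : ℝ) :
    ℝ := ∑ i ∈ Y, if q ∈ K i then prof k (c i q - s) else 0

section

variable {ι : Type*} {Y : Finset ι} {K : ι → Set L} {c : ι → L → ℝ} {k : ℝ} {q : L}

lemma softSum_continuous : Continuous (softSum Y K c k q) := by
  classical
  unfold softSum
  refine continuous_finsetSum _ fun i _ => ?_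
  split_ifs
  · exact (prof_contDiff k).continuous.comp (continuous_const.sub continuous_id)
  · exact continuous_const

lemma softSum_lt (hk : 1 ≤ k) {s s' : ℝ} (hs : s < s') (hpos : 0 < softSum Y K c k q s) :
    softSum Y K c k q s < softSum Y K c k q s' := by
  classical
  obtain ⟨i, hi, hpi⟩ : ∃ i ∈ Y, 0 < (if q ∈ K i then prof k (c i q - s) else 0) := by
    by_contra hcon
    push Not at hcon
    exact absurd (Finset.sum_nonpos hcon) (not_le.2 hpos)
  unfold softSum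
  refine Finset.sum_lt_sum (fun j _ => ?_) ⟨i, hi, ?_⟩
  · split_ifs
    · exact prof_antitone hk (by linarith)
    · exact le_rfl
  · split_ifs at hpi ⊢
    · have h1 : c i q - s < 0 := neg_of_prof_pos hpi
      exact prof_strictAntiOn hk (by simp only [mem_Iic]; linarith) (by simp only [mem_Iic]; linarith)
        (by linarith)
    · exact absurd hpi (lt_irrefl _)

lemma softSum_unique (hk : 1 ≤ k) {a s s' : ℝ} (ha : 0 < a) (h : softSum Y K c k q s = a)
    (h' : softSum Y K c k q s' = a) : s = s' := by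
  rcases lt_trichotomy s s' with h1 | h1 | h1
  · have := softSum_lt hk h1 (by rw [h]; exact ha)
    rw [h, h'] at this
    exact absurd this (lt_irrefl _)
  · exact h1
  · have := softSum_lt hk h1 (by rw [h']; exact ha)
    rw [h, h'] at this
    exact absurd this (lt_irrefl _)

lemma softSum_exists (hk : 1 ≤ k) {δ : ℝ} (hδ : 0 < δ)
    (hN : Y.card * prof k (-δ) ≤ prof k (-(2 * δ))) (hY : ∃ i ∈ Y, q ∈ K i) :
    ∃ j ∈ Y, q ∈ K j ∧ (∀ i ∈ Y, q ∈ K i → c j q ≤ c i q) ∧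
      ∃ s, c j q + δ ≤ s ∧ s ≤ c j q + 2 * δ ∧ softSum Y K c k q s = Y.card * prof k (-δ) := by
  classical
  obtain ⟨i₀, hi₀, hi₀K⟩ := hY
  obtain ⟨j, hj, hjmin⟩ := (Y.filter (fun i => q ∈ K i)).exists_min_image (fun i => c i q)
    ⟨i₀, Finset.mem_filter.2 ⟨hi₀, hi₀K⟩⟩
  rw [Finset.mem_filter] at hj
  have hmin : ∀ i ∈ Y, q ∈ K i → c j q ≤ c i q := fun i hi hiK =>
    hjmin i (Finset.mem_filter.2 ⟨hi, hiK⟩)
  refine ⟨j, hj.1, hj.2, hmin, ?_⟩
  have h1 : softSum Y K c k q (c j q + δ) ≤ Y.card * prof k (-δ) := by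
    unfold softSum
    have h2 : ∀ i ∈ Y, (if q ∈ K i then prof k (c i q - (c j q + δ)) else 0) ≤ prof k (-δ) := by
      intro i hi
      split_ifs with h
      · exact prof_antitone hk (by linarith [hmin i hi h])
      · exact prof_nonneg _ _
    have h3 := Finset.sum_le_card_nsmul Y _ _ h2
    rwa [nsmul_eq_mul] at h3
  have h2 : (Y.card : ℝ) * prof k (-δ) ≤ softSum Y K c k q (c j q + 2 * δ) := by
    refine hN.trans ?_
    unfold softSum
    have h3 : (if q ∈ K j then prof k (c j q - (c j q + 2 * δ)) else 0) = prof k (-(2 * δ)) := by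
      rw [if_pos hj.2]
      congr 1
      ring
    rw [← h3]
    exact Finset.single_le_sum (f := fun i => if q ∈ K i then prof k (c i q - (c j q + 2 * δ)) else 0)
      (fun i _ => by
        split_ifs
        · exact prof_nonneg _ _
        · exact le_rfl) hj.1
  obtain ⟨s, hs, hsa⟩ := intermediate_value_Icc (by linarith : c j q + δ ≤ c j q + 2 * δ)
    (softSum_continuous (Y := Y) (K := K) (c := c) (k := k) (q := q)).continuousOn ⟨h1, h2⟩
  exact ⟨s, hs.1, hs.2, hsa⟩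

end

open Classical in
theorem exists_softmin {ι : Type*} (Y : Finset ι) {K I U : ι → Set L} {c : ι → L → ℝ}
    {b : L → ℝ} (hK : ∀ i, IsClosed (K i)) (hI : ∀ i, IsOpen (I i)) (hIK : ∀ i, I i ⊆ K i)
    (hU : ∀ i, IsOpen (U i)) (hKU : ∀ i, K i ⊆ U i)
    (hc : ∀ i, ContMDiffOn 𝓘(ℝ, F) 𝓘(ℝ, ℝ) ∞ (c i) (U i))
    (hcb : ∀ i, ∀ q ∈ K i, q ∉ I i → b q ≤ c i q)
    {δ : ℝ} (hδ : 0 < δ) (hY : ∀ q, ∃ i ∈ Y, q ∈ K i ∧ c i q + 2 * δ < b q)
    {k : ℝ} (hk : 1 ≤ k) (hN : Y.card * prof k (-δ) ≤ prof k (-(2 * δ))) :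
    ∃ (ψ : L → ℝ) (a : ℝ), ContMDiff 𝓘(ℝ, F) 𝓘(ℝ, ℝ) ∞ ψ ∧
      (∀ q, ∃ j ∈ Y, q ∈ K j ∧ c j q + δ ≤ ψ q) ∧
      (∀ q₀, ∀ᶠ q in 𝓝 q₀, ∑ i ∈ Y with q₀ ∈ I i, prof k (c i q - ψ q) = a) := by
  classical
  set a : ℝ := Y.card * prof k (-δ) with ha
  have hcomb : ∀ q, ∃ s, softSum Y K c k q s = a ∧ s < b q ∧ ∃ j ∈ Y, q ∈ K j ∧ c j q + δ ≤ s := by
    intro q
    obtain ⟨i, hi, hiK, hib⟩ := hY q
    obtain ⟨j, hj, hjK, hjmin, s, hs1, hs2, hs3⟩ := softSum_exists (c := c) hk hδ hN ⟨i, hi, hiK⟩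
    exact ⟨s, hs3, by linarith [hjmin i hi hiK], j, hj, hjK, hs1⟩
  choose ψ hψ1 hψ2 hψ3 using hcomb
  by_cases hL : Nonempty L
  swap
  · refine ⟨ψ, a, fun q => absurd ⟨q⟩ hL, fun q => absurd ⟨q⟩ hL, fun q => absurd ⟨q⟩ hL⟩
  obtain ⟨q₁⟩ := hL
  have hapos : 0 < a := by
    obtain ⟨i, hi, -⟩ := hY q₁
    have h1 : 0 < Y.card := Finset.card_pos.2 ⟨i, hi⟩
    exact mul_pos (by exact_mod_cast h1) (prof_pos k (by linarith))
  -- local structure
  have hloc : ∀ q₀ s₀, s₀ < b q₀ → ∀ᶠ p in 𝓝 (q₀, s₀), softSum Y K c k p.1 p.2 =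
      ∑ i ∈ Y with q₀ ∈ I i, prof k (c i p.1 - p.2) := by
    intro q₀ s₀ hs₀
    have h1 : ∀ i ∈ Y, ∀ᶠ p in 𝓝 (q₀, s₀), (if p.1 ∈ K i then prof k (c i p.1 - p.2) else 0) =
        (if q₀ ∈ I i then prof k (c i p.1 - p.2) else 0) := by
      intro i _
      have hfst : Tendsto (fun p : L × ℝ => p.1) (𝓝 (q₀, s₀)) (𝓝 q₀) := continuousAt_fst
      by_cases hI₀ : q₀ ∈ I i
      · have h2 : ∀ᶠ p in 𝓝 (q₀, s₀), p.1 ∈ I i := hfst.eventually ((hI i).mem_nhds hI₀)
        filter_upwards [h2] with p hp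
        rw [if_pos (hIK i hp), if_pos hI₀]
      · by_cases hK₀ : q₀ ∈ K i
        · have h3 : ContinuousAt (c i) q₀ :=
            ((hc i).contMDiffAt ((hU i).mem_nhds (hKU i hK₀))).continuousAt
          have h4 : ContinuousAt (fun p : L × ℝ => c i p.1 - p.2) (q₀, s₀) :=
            (ContinuousAt.comp (f := fun p : L × ℝ => p.1) (g := c i) h3 continuousAt_fst).sub
              continuousAt_snd
          have h5 : 0 < c i q₀ - s₀ := by linarith [hcb i q₀ hK₀ hI₀]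
          have h6 : ∀ᶠ p in 𝓝 (q₀, s₀), 0 < c i p.1 - p.2 :=
            h4.eventually (lt_mem_nhds h5)
          filter_upwards [h6] with p hp
          rw [if_neg hI₀, prof_of_nonneg k hp.le, ite_self]
        · have h2 : ∀ᶠ p in 𝓝 (q₀, s₀), p.1 ∈ (K i)ᶜ :=
            hfst.eventually ((hK i).isOpen_compl.mem_nhds hK₀)
          filter_upwards [h2] with p hp
          rw [if_neg hp, if_neg hI₀]
    filter_upwards [(Finset.eventually_all Y).2 h1] with p hp
    rw [Finset.sum_filter]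
    unfold softSum
    exact Finset.sum_congr rfl fun i hi => hp i hi
  -- smoothness
  have hsm : ContMDiff 𝓘(ℝ, F) 𝓘(ℝ, ℝ) ∞ ψ := by
    intro q₀
    set f : L × ℝ → ℝ := fun p => ∑ i ∈ Y with q₀ ∈ I i, prof k (c i p.1 - p.2) with hf
    have h1 := hloc q₀ (ψ q₀) (hψ2 q₀)
    have hfst : Tendsto (fun p : L × ℝ => p.1) (𝓝 (q₀, ψ q₀)) (𝓝 q₀) := continuousAt_fst
    have h2 : ∀ᶠ p in 𝓝 (q₀, ψ q₀), ∀ i ∈ Y.filter (fun i => q₀ ∈ I i), p.1 ∈ U i := by
      rw [Finset.eventually_all]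
      intro i hi
      exact hfst.eventually ((hU i).mem_nhds (hKU i (hIK i (Finset.mem_filter.1 hi).2)))
    obtain ⟨W, hWsub, hWo, hWm⟩ := _root_.mem_nhds_iff.1 (h1.and h2)
    have hfW : ContMDiffOn (𝓘(ℝ, F).prod 𝓘(ℝ, ℝ)) 𝓘(ℝ, ℝ) ∞ f W := by
      intro p hp
      apply ContMDiffAt.contMDiffWithinAt
      have h3 : ∀ i ∈ Y.filter (fun i => q₀ ∈ I i),
          ContMDiffAt (𝓘(ℝ, F).prod 𝓘(ℝ, ℝ)) 𝓘(ℝ, ℝ) ∞
            (fun p : L × ℝ => prof k (c i p.1 - p.2)) p := by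
        intro i hi
        have h4 : ContMDiffAt 𝓘(ℝ, F) 𝓘(ℝ, ℝ) ∞ (c i) p.1 :=
          (hc i).contMDiffAt ((hU i).mem_nhds ((hWsub hp).2 i hi))
        have h5 : ContMDiffAt (𝓘(ℝ, F).prod 𝓘(ℝ, ℝ)) 𝓘(ℝ, ℝ) ∞
            (fun p : L × ℝ => c i p.1 - p.2) p :=
          (h4.comp p contMDiffAt_fst).sub contMDiffAt_snd
        exact ((prof_contDiff k).contMDiff _).comp p h5
      exact ContMDiffAt.sum h3
    have hfa : f (q₀, ψ q₀) = a := ((hWsub hWm).1.symm.trans (hψ1 q₀))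
    have hder : HasDerivAt (fun s => f (q₀, s))
        (∑ i ∈ Y with q₀ ∈ I i, -deriv (prof k) (c i q₀ - ψ q₀)) (ψ q₀) := by
      apply HasDerivAt.fun_sum
      intro i _
      have h3 : HasDerivAt (fun s => c i q₀ - s) (-1) (ψ q₀) := by
        simpa using (hasDerivAt_id (ψ q₀)).const_sub (c i q₀)
      have h4 : HasDerivAt (prof k) (deriv (prof k) (c i q₀ - ψ q₀)) (c i q₀ - ψ q₀) :=
        (prof_differentiable k _).hasDerivAt
      have h5 := HasDerivAt.comp (h₂ := prof k) (h := fun s => c i q₀ - s) (ψ q₀) h4 h3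
      refine h5.congr_deriv ?_
      ring
    have hne : ∑ i ∈ Y with q₀ ∈ I i, -deriv (prof k) (c i q₀ - ψ q₀) ≠ 0 := by
      obtain ⟨i, hi, hpi⟩ : ∃ i ∈ Y.filter (fun i => q₀ ∈ I i), 0 < prof k (c i q₀ - ψ q₀) := by
        by_contra hcon
        push Not at hcon
        have h3 : f (q₀, ψ q₀) ≤ 0 := Finset.sum_nonpos hcon
        linarith
      have h4 : 0 < ∑ i ∈ Y with q₀ ∈ I i, -deriv (prof k) (c i q₀ - ψ q₀) := by
        refine Finset.sum_pos' (fun j _ => by linarith [prof_deriv_le hk (c j q₀ - ψ q₀)]) ⟨i, hi, ?_⟩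
        linarith [prof_deriv_lt hk (neg_of_prof_pos hpi)]
      exact h4.ne'
    refine implicit_smooth hWo hfW hWm hfa hder hne ?_
    intro q s hqs hfqs
    have h3 : softSum Y K c k q s = a := (hWsub hqs).1.trans hfqs
    exact softSum_unique hk hapos h3 (hψ1 q)
  refine ⟨ψ, a, hsm, hψ3, ?_⟩
  intro q₀
  have h1 := hloc q₀ (ψ q₀) (hψ2 q₀)
  have h2 : ContinuousAt (fun q => (q, ψ q)) q₀ :=
    continuousAt_id.prodMk hsm.continuous.continuousAt
  filter_upwards [h2.eventually h1] with q hq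
  rw [← hq]
  exact hψ1 q

end Pool.Agent.Run7.h811
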