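import Mathlib
import Pool.Agent.Run7.h811.Profile

/-! The second derivative of a soft minimum. -/

open scoped Topology ContDiff
open Set Filter

noncomputable section

namespace Pool.Agent.Run7.h811

section general

variable {ι : Type*} {A : Finset ι} {g : ℝ → ℝ} (hg : ContDiff ℝ ∞ g)
  {θ θ' : ι → ℝ → ℝ} {θ'' : ι → ℝ} {ψ ψ' : ℝ → ℝ} {ψ'' a : ℝ}
  (h1 : ∀ k ∈ A, ∀ᶠ t in 𝓝 (0:ℝ), HasDerivAt (θ k) (θ' k t) t)
  (h2 : ∀ k ∈ A, HasDerivAt (θ' k) (θ'' k) 0)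
  (h3 : ∀ᶠ t in 𝓝 (0:ℝ), HasDerivAt ψ (ψ' t) t)
  (h4 : HasDerivAt ψ' ψ'' 0)
  (h5 : ∀ᶠ t in 𝓝 (0:ℝ), ∑ k ∈ A, g (θ k t - ψ t) = a)
include hg h1 h3 h5

lemma softmin_first_eventually :
    ∀ᶠ t in 𝓝 (0:ℝ), ∑ k ∈ A, deriv g (θ k t - ψ t) * (θ' k t - ψ' t) = 0 := by
  have h1' : ∀ᶠ t in 𝓝 (0:ℝ), ∀ k ∈ A, HasDerivAt (θ k) (θ' k t) t :=
    (Finset.eventually_all A).2 h1
  filter_upwards [h1', h3, h5.eventually_nhds] with t ht1 ht3 ht5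
  have h6 : HasDerivAt (fun t => ∑ k ∈ A, g (θ k t - ψ t))
      (∑ k ∈ A, deriv g (θ k t - ψ t) * (θ' k t - ψ' t)) t := by
    apply HasDerivAt.fun_sum
    intro k hk
    have h7 : HasDerivAt g (deriv g (θ k t - ψ t)) (θ k t - ψ t) :=
      ((hg.differentiable (by simp)) _).hasDerivAt
    exact h7.comp t ((ht1 k hk).sub ht3)
  have h7 : HasDerivAt (fun t => ∑ k ∈ A, g (θ k t - ψ t)) 0 t :=
    (hasDerivAt_const t a).congr_of_eventuallyEq ht5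
  exact h6.unique h7

include h2 h4

lemma softmin_second :
    ∑ k ∈ A, (deriv (deriv g) (θ k 0 - ψ 0) * (θ' k 0 - ψ' 0) ^ 2 +
      deriv g (θ k 0 - ψ 0) * (θ'' k - ψ'')) = 0 := by
  have h6 := softmin_first_eventually hg h1 h3 h5
  have h7 : HasDerivAt (fun t => ∑ k ∈ A, deriv g (θ k t - ψ t) * (θ' k t - ψ' t))
      (∑ k ∈ A, (deriv (deriv g) (θ k 0 - ψ 0) * (θ' k 0 - ψ' 0) * (θ' k 0 - ψ' 0) +
      deriv g (θ k 0 - ψ 0) * (θ'' k - ψ''))) 0 := by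
    apply HasDerivAt.fun_sum
    intro k hk
    have hd : ContDiff ℝ ∞ (deriv g) := (contDiff_infty_iff_deriv.1 hg).2
    have h8 : HasDerivAt (deriv g) (deriv (deriv g) (θ k 0 - ψ 0)) (θ k 0 - ψ 0) :=
      ((hd.differentiable (by simp)) _).hasDerivAt
    have h9 : HasDerivAt (fun t => deriv g (θ k t - ψ t))
        (deriv (deriv g) (θ k 0 - ψ 0) * (θ' k 0 - ψ' 0)) 0 :=
      HasDerivAt.comp (h₂ := deriv g) (h := fun t => θ k t - ψ t) (0:ℝ) h8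
        ((h1 k hk).self_of_nhds.sub h3.self_of_nhds)
    exact h9.mul ((h2 k hk).sub h4)
  have h8 : HasDerivAt (fun t => ∑ k ∈ A, deriv g (θ k t - ψ t) * (θ' k t - ψ' t)) 0 0 :=
    (hasDerivAt_const (0:ℝ) (0:ℝ)).congr_of_eventuallyEq h6
  refine (Finset.sum_congr rfl fun k _ => ?_).trans (h7.unique h8)
  ring

end general

/-- The algebra of the argument: the weights `w k` and the second order inequality. -/
lemma softmin_ineq {ι : Type*} {A : Finset ι} {g : ℝ → ℝ} (hg : ContDiff ℝ ∞ g) {k' : ℝ}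
    (hg2 : ∀ u, k' * (-deriv g u) ≤ deriv (deriv g) u)
    {θ θ' : ι → ℝ → ℝ} {θ'' : ι → ℝ} {ψ ψ' : ℝ → ℝ} {ψ'' a : ℝ}
    (h1 : ∀ k ∈ A, ∀ᶠ t in 𝓝 (0:ℝ), HasDerivAt (θ k) (θ' k t) t)
    (h2 : ∀ k ∈ A, HasDerivAt (θ' k) (θ'' k) 0)
    (h3 : ∀ᶠ t in 𝓝 (0:ℝ), HasDerivAt ψ (ψ' t) t)
    (h4 : HasDerivAt ψ' ψ'' 0)
    (h5 : ∀ᶠ t in 𝓝 (0:ℝ), ∑ k ∈ A, g (θ k t - ψ t) = a) :
    ∑ k ∈ A, (-deriv g (θ k 0 - ψ 0)) * (-θ'' k + k' * (θ' k 0 - ψ' 0) ^ 2) ≤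
      (∑ k ∈ A, (-deriv g (θ k 0 - ψ 0))) * (-ψ'') := by
  have h6 := softmin_second hg h1 h2 h3 h4 h5
  rw [Finset.sum_mul]
  have h7 : ∑ k ∈ A, (-deriv g (θ k 0 - ψ 0)) * (-ψ'') =
      ∑ k ∈ A, ((-deriv g (θ k 0 - ψ 0)) * (-θ'' k) +
        deriv (deriv g) (θ k 0 - ψ 0) * (θ' k 0 - ψ' 0) ^ 2) := by
    rw [← sub_eq_zero, ← Finset.sum_sub_distrib, ← neg_eq_zero, ← Finset.sum_neg_distrib]
    refine (Finset.sum_congr rfl fun k _ => ?_).trans h6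
    ring
  rw [h7]
  refine Finset.sum_le_sum fun k _ => ?_
  have h8 := mul_le_mul_of_nonneg_right (hg2 (θ k 0 - ψ 0)) (sq_nonneg (θ' k 0 - ψ' 0))
  nlinarith

end Pool.Agent.Run7.h811
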