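import Mathlib
import Pool.Agent.Run7.h811.SoftMin
import Pool.Agent.Run7.h811.Choice
import Pool.Agent.Run7.h811.Psi

/-! The second order argument. -/

open scoped Topology ContDiff Manifold
open Set Metric Bundle Filter

noncomputable section

namespace Pool.Agent.Run7.h811

open Pool.Agent.Helper186

set_option linter.unusedSectionVars false

variable {F : Type*} [NormedAddCommGroup F] [NormedSpace ℝ F] [FiniteDimensional ℝ F]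
  {L : Type*} [TopologicalSpace L] [ChartedSpace F L] [IsManifold 𝓘(ℝ, F) ∞ L]
  {L' : Type*} [TopologicalSpace L'] [ChartedSpace F L'] [IsManifold 𝓘(ℝ, F) ∞ L']

/-- The tangent vector `(ξ, ζ)` at `(q, p)` is killed by the differential of `ρ`. -/
def Killed (φ : Cotangent F L → Cotangent F L') (q : L) (p : F →L[ℝ] ℝ) (ξ : F)
    (ζ : F →L[ℝ] ℝ) : Prop :=
  mfderiv (IC F) 𝓘(ℝ, F) (rho φ) (⟨q, asForm q p⟩ : Cotangent F L)
    (show TangentSpace (IC F) (⟨q, asForm q p⟩ : Cotangent F L) from (ξ, ζ)) = 0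

/-- The Jensen inequality for slopes. -/
def Jensen (φ : Cotangent F L → Cotangent F L') (K : Set (Cotangent F L)) (κ : ℝ) : Prop :=
  ∀ (q : L) (ξ : F) (n : ℕ) (w : Fin n → ℝ) (p ζ : Fin n → F →L[ℝ] ℝ) (τ : F →L[ℝ] ℝ),
    (∀ i, 0 ≤ w i) → ∑ i, w i = 1 →
    (∀ i, (⟨q, asForm q (p i)⟩ : Cotangent F L) ∈ K) → (∀ i, Killed φ q (p i) ξ (ζ i)) →
    Killed φ q (∑ i, w i • p i) ξ τ →
    τ ξ + κ * ((∑ i, w i • p i) ξ) ^ 2 ≤ ∑ i, w i * (ζ i ξ + κ * (p i ξ) ^ 2)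

lemma Jensen.finset {φ : Cotangent F L → Cotangent F L'} {K : Set (Cotangent F L)} {κ : ℝ}
    (hJ : Jensen φ K κ) {ι : Type*} (A : Finset ι) {q : L} {ξ : F} {w : ι → ℝ}
    {p ζ : ι → F →L[ℝ] ℝ} {τ P : F →L[ℝ] ℝ} (hw : ∀ i ∈ A, 0 ≤ w i) (hw1 : ∑ i ∈ A, w i = 1)
    (hp : ∀ i ∈ A, (⟨q, asForm q (p i)⟩ : Cotangent F L) ∈ K)
    (hζ : ∀ i ∈ A, Killed φ q (p i) ξ (ζ i)) (hP : P = ∑ i ∈ A, w i • p i)
    (hτ : Killed φ q P ξ τ) :
    τ ξ + κ * (P ξ) ^ 2 ≤ ∑ i ∈ A, w i * (ζ i ξ + κ * (p i ξ) ^ 2) := by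
  classical
  let e : Fin A.card ≃ A := A.equivFin.symm
  have hsumR : ∀ (f : ι → ℝ), ∑ i : Fin A.card, f (e i) = ∑ i ∈ A, f i := by
    intro f
    rw [Equiv.sum_comp e (fun i : A => f i)]
    exact Finset.sum_coe_sort A f
  have hsumF : ∀ (f : ι → F →L[ℝ] ℝ), ∑ i : Fin A.card, f (e i) = ∑ i ∈ A, f i := by
    intro f
    rw [Equiv.sum_comp e (fun i : A => f i)]
    exact Finset.sum_coe_sort A f
  have h1 := hJ q ξ A.card (fun i => w (e i)) (fun i => p (e i)) (fun i => ζ (e i)) τ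
    (fun i => hw _ (e i).2) (by rw [hsumR w]; exact hw1) (fun i => hp _ (e i).2)
    (fun i => hζ _ (e i).2) (by rw [hsumF (fun i => w i • p i), ← hP]; exact hτ)
  rw [hsumF (fun i => w i • p i), ← hP, hsumR (fun i => w i * (ζ i ξ + κ * (p i ξ) ^ 2))] at h1
  exact h1

/-- Points over `q`. -/
lemma eq_mk {x : Cotangent F L} {q : L} (hx : x.1 = q) :
    x = (⟨q, asForm q (cov x)⟩ : Cotangent F L) := by
  subst hx; rfl

lemma killed_of {φ : Cotangent F L → Cotangent F L'} {x : Cotangent F L} {q : L} (hx : x.1 = q)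
    {V : TangentSpace (IC F) x} (hV : mfderiv (IC F) 𝓘(ℝ, F) (rho φ) x V = 0) {ξ : F}
    (hξ : (show F × (F →L[ℝ] ℝ) from V).1 = ξ) :
    Killed φ q (cov x) ξ (show F × (F →L[ℝ] ℝ) from V).2 := by
  subst hx
  subst hξ
  exact hV

/-- The first component of the derivative of a section. -/
lemma mfderiv_section_fst {s : L → Cotangent F L} {q : L}
    (hs : MDifferentiableAt 𝓘(ℝ, F) (IC F) s q) (hp : ∀ᶠ q' in 𝓝 q, (s q').1 = q') (v : F) :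
    (show F × (F →L[ℝ] ℝ) from mfderiv 𝓘(ℝ, F) (IC F) s q v).1 = v := by
  have h1 := proj_mfderiv_section hs hp v
  have h2 := mfderiv_projC (s q) (mfderiv 𝓘(ℝ, F) (IC F) s q v)
  exact h2.symm.trans h1

/-- Algebra of the weighted variance. -/
lemma variance_step {ι : Type*} (A : Finset ι) {w u z : ι → ℝ} {s ζ κ k : ℝ} (hκ : κ < k)
    (hw : ∀ i ∈ A, 0 ≤ w i) (hw1 : ∑ i ∈ A, w i = 1) (hs : s = ∑ i ∈ A, w i * u i)
    (h1 : ∑ i ∈ A, w i * (z i + k * (u i - s) ^ 2) ≤ ζ)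
    (h2 : ζ + κ * s ^ 2 ≤ ∑ i ∈ A, w i * (z i + κ * (u i) ^ 2)) :
    ∀ i ∈ A, 0 < w i → u i = s := by
  have e1 : ∑ i ∈ A, w i * (z i + κ * (u i) ^ 2) - κ * s ^ 2 =
      ∑ i ∈ A, w i * (z i + κ * (u i - s) ^ 2) := by
    have e2 : ∑ i ∈ A, w i * (z i + κ * (u i - s) ^ 2) =
        ∑ i ∈ A, w i * (z i + κ * (u i) ^ 2) - 2 * κ * s * ∑ i ∈ A, w i * u i +
          κ * s ^ 2 * ∑ i ∈ A, w i := by
      rw [Finset.mul_sum, Finset.mul_sum, ← Finset.sum_sub_distrib, ← Finset.sum_add_distrib]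
      refine Finset.sum_congr rfl fun i _ => ?_
      ring
    rw [e2, ← hs, hw1]
    ring
  have e3 : ∑ i ∈ A, w i * (z i + k * (u i - s) ^ 2) ≤
      ∑ i ∈ A, w i * (z i + κ * (u i - s) ^ 2) := by
    rw [← e1]
    linarith
  have e4 : ∑ i ∈ A, (k - κ) * (w i * (u i - s) ^ 2) ≤ 0 := by
    have e5 : ∑ i ∈ A, (k - κ) * (w i * (u i - s) ^ 2) =
        ∑ i ∈ A, w i * (z i + k * (u i - s) ^ 2) -
          ∑ i ∈ A, w i * (z i + κ * (u i - s) ^ 2) := by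
      rw [← Finset.sum_sub_distrib]
      refine Finset.sum_congr rfl fun i _ => ?_
      ring
    rw [e5]
    linarith
  have hnn : ∀ i ∈ A, 0 ≤ (k - κ) * (w i * (u i - s) ^ 2) := fun i hi =>
    mul_nonneg (by linarith) (mul_nonneg (hw i hi) (sq_nonneg _))
  have e6 := (Finset.sum_eq_zero_iff_of_nonneg hnn).1 (le_antisymm e4 (Finset.sum_nonneg hnn))
  intro i hi hwi
  have e7 := e6 i hi
  have e8 : (u i - s) ^ 2 = 0 := by
    rcases mul_eq_zero.1 e7 with h | h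
    · linarith
    · rcases mul_eq_zero.1 h with h | h
      · linarith
      · exact h
  have e9 : u i - s = 0 := by
    simpa using e8
  linarith

/-- The section `-dψ - β`. -/
def secOf (ψ : L → ℝ) (β : (q : L) → TangentSpace 𝓘(ℝ, F) q →L[ℝ] ℝ) (q : L) : Cotangent F L :=
  ⟨q, asForm q (-(ofForm (dForm 𝓘(ℝ, F) ψ q)) - ofForm (β q))⟩

lemma contMDiff_secOf {ψ : L → ℝ} (hψ : ContMDiff 𝓘(ℝ, F) 𝓘(ℝ, ℝ) ∞ ψ)
    {β : (q : L) → TangentSpace 𝓘(ℝ, F) q →L[ℝ] ℝ} (hβ : SmoothForm β) :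
    ContMDiff 𝓘(ℝ, F) (IC F) ∞ (secOf ψ β) := by
  refine contMDiff_section (θ := fun q =>
    asForm q (-(ofForm (dForm 𝓘(ℝ, F) ψ q)) - ofForm (β q))) ?_
  intro V
  exact (smoothForm_dForm hψ V).neg.sub (hβ V)

/-- One direction: data along a chart line. -/
lemma line_data {φ : Cotangent F L → Cotangent F L'} (hφ : ContMDiff (IC F) (IC F) ∞ φ)
    {K : Set (Cotangent F L)} (Λ : Leaves φ K)
    {h : Cotangent F L → ℝ} (hh : ContMDiff (IC F) 𝓘(ℝ, ℝ) ∞ h)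
    {β : (q : L) → TangentSpace 𝓘(ℝ, F) q →L[ℝ] ℝ} (hβs : SmoothForm β)
    (hβ : ∀ x (V : TangentSpace (IC F) x),
        canForm (φ x) (mfderiv (IC F) (IC F) φ x V) = canForm x V + dForm (IC F) h x V +
          β x.1 (mfderiv (IC F) 𝓘(ℝ, F) (TotalSpace.proj : Cotangent F L → L) x V))
    {k : ℝ} {ψ : L → ℝ} (hψ : ContMDiff 𝓘(ℝ, F) 𝓘(ℝ, ℝ) ∞ ψ) {q₀ : L}
    {A : Finset L'} (hA : ∀ y ∈ A, q₀ ∈ Λ.U y) {a : ℝ}
    (hsum : ∀ᶠ q in 𝓝 q₀, ∑ y ∈ A, prof k (h (Λ.X (q, y)) - ψ q) = a)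
    (hk : 1 ≤ k) (v : F) :
    ∑ y ∈ A, (-deriv (prof k) (h (Λ.X (q₀, y)) - ψ q₀)) *
      (cov (Λ.X (q₀, y)) v - cov (secOf ψ β q₀) v) = 0 ∧
    ∑ y ∈ A, (-deriv (prof k) (h (Λ.X (q₀, y)) - ψ q₀)) *
      ((show F × (F →L[ℝ] ℝ) from mfderiv 𝓘(ℝ, F) (IC F) (fun q => Λ.X (q, y)) q₀ v).2 v +
        k * (cov (Λ.X (q₀, y)) v - cov (secOf ψ β q₀) v) ^ 2) ≤
      (∑ y ∈ A, (-deriv (prof k) (h (Λ.X (q₀, y)) - ψ q₀))) *
      (show F × (F →L[ℝ] ℝ) from mfderiv 𝓘(ℝ, F) (IC F) (secOf ψ β) q₀ v).2 v := by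
  have hline : ContinuousAt (chartLine q₀ v) (0:ℝ) :=
    (hasMFDerivAt_chartLine_zero q₀ v).continuousAt
  have hlineE : ∀ {P : L → Prop}, (∀ᶠ q in 𝓝 q₀, P q) → ∀ᶠ t : ℝ in 𝓝 0, P (chartLine q₀ v t) := by
    intro P hP
    refine hline.eventually ?_
    rw [chartLine_zero]
    exact hP
  let B : ℝ → ℝ := fun t => cotCoord q₀ v (⟨chartLine q₀ v t, β (chartLine q₀ v t)⟩ : Cotangent F L)
  let θ : L' → ℝ → ℝ := fun y t => h (Λ.X (chartLine q₀ v t, y))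
  let θ' : L' → ℝ → ℝ := fun y t => -cotCoord q₀ v (Λ.X (chartLine q₀ v t, y)) - B t
  let ψ₁ : ℝ → ℝ := fun t => ψ (chartLine q₀ v t)
  let ψ₁' : ℝ → ℝ := fun t => -cotCoord q₀ v (secOf ψ β (chartLine q₀ v t)) - B t
  have hsecs : ContMDiff 𝓘(ℝ, F) (IC F) ∞ (secOf ψ β) := contMDiff_secOf hψ hβs
  have hβsec : ContMDiff 𝓘(ℝ, F) (IC F) ∞ (fun q => (⟨q, β q⟩ : Cotangent F L)) :=
    contMDiff_section hβs
  set B' : ℝ := (show F × (F →L[ℝ] ℝ) from mfderiv 𝓘(ℝ, F) (IC F)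
    (fun q => (⟨q, β q⟩ : Cotangent F L)) q₀ v).2 v with hB'
  have hB : HasDerivAt B B' 0 :=
    hasDerivAt_cotCoord_line v (s := fun q => (⟨q, β q⟩ : Cotangent F L))
      (hβsec.mdifferentiableAt (by simp)) rfl
  -- the linear algebra identity
  have hlin : ∀ (q : L) (p : F →L[ℝ] ℝ),
      cotCoord q₀ v (⟨q, asForm q (-p - ofForm (β q))⟩ : Cotangent F L) =
      -p ((trivializationAt F (TangentSpace 𝓘(ℝ, F)) q₀).symmL ℝ q v) -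
        cotCoord q₀ v (⟨q, β q⟩ : Cotangent F L) := by
    intro q p
    rw [cotCoord_eq, cotCoord_eq]
    rfl
  have h1 : ∀ y ∈ A, ∀ᶠ t in 𝓝 (0:ℝ), HasDerivAt (θ y) (θ' y t) t := by
    intro y hy
    have hU : ∀ᶠ q in 𝓝 q₀, q ∈ Λ.U y := (Λ.isOpen_U y).mem_nhds (hA y hy)
    have h2 := eventually_hasDerivAt_line v (f := fun q => h (Λ.X (q, y)))
      (θ := fun q => asForm q (-cov (Λ.X (q, y)) - ofForm (β q)))
      (hU.mono fun q hq => Λ.hasMFDerivAt_c hφ hh hβ hq)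
    filter_upwards [h2, hlineE hU] with t ht htU
    refine ht.congr_deriv ?_
    rw [hlin, ← cotCoord_eq_cov q₀ v (Λ.X_fst htU)]
  have h2 : ∀ y ∈ A, HasDerivAt (θ' y) (-(show F × (F →L[ℝ] ℝ) from
      mfderiv 𝓘(ℝ, F) (IC F) (fun q => Λ.X (q, y)) q₀ v).2 v - B') 0 := by
    intro y hy
    have h3 := hasDerivAt_cotCoord_line v (s := fun q => Λ.X (q, y))
      ((Λ.contMDiffAt_X (hA y hy)).mdifferentiableAt (by simp)) (Λ.X_fst (hA y hy))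
    exact h3.neg.sub hB
  have h3 : ∀ᶠ t in 𝓝 (0:ℝ), HasDerivAt ψ₁ (ψ₁' t) t := by
    have h4 := eventually_hasDerivAt_line v (q₀ := q₀) (f := ψ) (θ := fun q => dForm 𝓘(ℝ, F) ψ q)
      (Filter.Eventually.of_forall fun q => (hψ.mdifferentiableAt (by simp)).hasMFDerivAt)
    filter_upwards [h4] with t ht
    refine ht.congr_deriv ?_
    show _ = -cotCoord q₀ v (secOf ψ β (chartLine q₀ v t)) - B t
    unfold secOf
    rw [hlin, cotCoord_eq]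
    show _ = -(-((ofForm (dForm 𝓘(ℝ, F) ψ (chartLine q₀ v t)))
      ((trivializationAt F (TangentSpace 𝓘(ℝ, F)) q₀).symmL ℝ (chartLine q₀ v t) v)) - B t) - B t
    have h5 : ∀ r s : ℝ, r = -(-r - s) - s := fun r s => by ring
    exact h5 _ _
  have h4 : HasDerivAt ψ₁' (-(show F × (F →L[ℝ] ℝ) from
      mfderiv 𝓘(ℝ, F) (IC F) (secOf ψ β) q₀ v).2 v - B') 0 := by
    have h5 := hasDerivAt_cotCoord_line v (s := secOf ψ β)
      (hsecs.mdifferentiableAt (by simp)) (q₀ := q₀) rfl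
    exact h5.neg.sub hB
  have h5 : ∀ᶠ t in 𝓝 (0:ℝ), ∑ y ∈ A, prof k (θ y t - ψ₁ t) = a := hlineE hsum
  -- values at zero
  have e0 : chartLine q₀ v 0 = q₀ := chartLine_zero q₀ v
  have e1 : ∀ y, θ y 0 - ψ₁ 0 = h (Λ.X (q₀, y)) - ψ q₀ := by
    intro y
    show h (Λ.X (chartLine q₀ v 0, y)) - ψ (chartLine q₀ v 0) = _
    rw [e0]
  have e2 : ∀ y ∈ A, θ' y 0 - ψ₁' 0 = -(cov (Λ.X (q₀, y)) v - cov (secOf ψ β q₀) v) := by
    intro y hy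
    show -cotCoord q₀ v (Λ.X (chartLine q₀ v 0, y)) - B 0 -
      (-cotCoord q₀ v (secOf ψ β (chartLine q₀ v 0)) - B 0) = _
    rw [e0, cotCoord_eq_cov q₀ v (Λ.X_fst (hA y hy)),
      cotCoord_eq_cov q₀ v (x := secOf ψ β q₀) (q := q₀) rfl]
    have e3 : ∀ w : F, w = v → -cov (Λ.X (q₀, y)) w - B 0 - (-cov (secOf ψ β q₀) w - B 0) =
      -(cov (Λ.X (q₀, y)) v - cov (secOf ψ β q₀) v) := by
      rintro w rfl
      ring
    exact e3 _ (symmL_self q₀ v)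
  refine ⟨?_, ?_⟩
  · have h6 := (softmin_first_eventually (prof_contDiff k) h1 h3 h5).self_of_nhds
    refine Eq.trans (Finset.sum_congr rfl fun y hy => ?_) h6
    rw [e1, e2 y hy]
    ring
  · have h6 := softmin_ineq (prof_contDiff k) (prof_convex hk) h1 h2 h3 h4 h5
    have e4 : ∀ y ∈ A, (-deriv (prof k) (θ y 0 - ψ₁ 0)) *
        (-(-(show F × (F →L[ℝ] ℝ) from
      mfderiv 𝓘(ℝ, F) (IC F) (fun q => Λ.X (q, y)) q₀ v).2 v - B') + k * (θ' y 0 - ψ₁' 0) ^ 2) =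
        (-deriv (prof k) (h (Λ.X (q₀, y)) - ψ q₀)) *
      ((show F × (F →L[ℝ] ℝ) from mfderiv 𝓘(ℝ, F) (IC F) (fun q => Λ.X (q, y)) q₀ v).2 v +
        k * (cov (Λ.X (q₀, y)) v - cov (secOf ψ β q₀) v) ^ 2) +
        (-deriv (prof k) (h (Λ.X (q₀, y)) - ψ q₀)) * B' := by
      intro y hy
      rw [e1, e2 y hy]
      ring
    have e5 : ∑ y ∈ A, (-deriv (prof k) (θ y 0 - ψ₁ 0)) =
        ∑ y ∈ A, (-deriv (prof k) (h (Λ.X (q₀, y)) - ψ q₀)) :=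
      Finset.sum_congr rfl fun y _ => by rw [e1]
    rw [Finset.sum_congr rfl e4, Finset.sum_add_distrib, ← Finset.sum_mul, e5] at h6
    linarith

/-- All strongly contributing leaves agree on a vector killed by `ρ ∘ s`. -/
theorem key_step {φ : Cotangent F L → Cotangent F L'} (hφ : ContMDiff (IC F) (IC F) ∞ φ)
    {K : Set (Cotangent F L)} (Λ : Leaves φ K)
    {h : Cotangent F L → ℝ} (hh : ContMDiff (IC F) 𝓘(ℝ, ℝ) ∞ h)
    {β : (q : L) → TangentSpace 𝓘(ℝ, F) q →L[ℝ] ℝ} (hβs : SmoothForm β)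
    (hβ : ∀ x (V : TangentSpace (IC F) x),
        canForm (φ x) (mfderiv (IC F) (IC F) φ x V) = canForm x V + dForm (IC F) h x V +
          β x.1 (mfderiv (IC F) 𝓘(ℝ, F) (TotalSpace.proj : Cotangent F L → L) x V))
    {κ k : ℝ} (hκ : κ < k) (hk : 1 ≤ k) (hJ : Jensen φ K κ)
    {ψ : L → ℝ} (hψ : ContMDiff 𝓘(ℝ, F) 𝓘(ℝ, ℝ) ∞ ψ) {q₀ : L}
    {A : Finset L'} (hA : ∀ y ∈ A, q₀ ∈ Λ.KK y) {a : ℝ}
    (hsum : ∀ᶠ q in 𝓝 q₀, ∑ y ∈ A, prof k (h (Λ.X (q, y)) - ψ q) = a)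
    {ξ : F} (hξ : mfderiv 𝓘(ℝ, F) 𝓘(ℝ, F) (rho φ ∘ secOf ψ β) q₀ ξ = 0) :
    ∀ y ∈ A, h (Λ.X (q₀, y)) < ψ q₀ → cov (Λ.X (q₀, y)) ξ = cov (secOf ψ β q₀) ξ := by
  have hA' : ∀ y ∈ A, q₀ ∈ Λ.U y := fun y hy => Λ.KK_sub y (hA y hy)
  have hsecs : ContMDiff 𝓘(ℝ, F) (IC F) ∞ (secOf ψ β) := contMDiff_secOf hψ hβs
  set μ : L' → ℝ := fun y => -deriv (prof k) (h (Λ.X (q₀, y)) - ψ q₀) with hμ
  have hμ0 : ∀ y, 0 ≤ μ y := fun y => by
    have := prof_deriv_le hk (h (Λ.X (q₀, y)) - ψ q₀)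
    simp only [hμ]
    linarith
  intro y₁ hy₁ hy₁lt
  have hμ1 : 0 < μ y₁ := by
    have := prof_deriv_lt hk (by linarith : h (Λ.X (q₀, y₁)) - ψ q₀ < 0)
    simp only [hμ]
    linarith
  set Mu : ℝ := ∑ y ∈ A, μ y with hMu
  have hMupos : 0 < Mu := Finset.sum_pos' (fun y _ => hμ0 y) ⟨y₁, hy₁, hμ1⟩
  set w : L' → ℝ := fun y => μ y / Mu with hw
  have hw0 : ∀ y ∈ A, 0 ≤ w y := fun y _ => div_nonneg (hμ0 y) hMupos.le
  have hw1 : ∑ y ∈ A, w y = 1 := by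
    simp only [hw]
    rw [← Finset.sum_div, ← hMu]
    exact div_self hMupos.ne'
  -- the barycentre
  have hfirst : ∀ v : F, cov (secOf ψ β q₀) v = ∑ y ∈ A, w y * cov (Λ.X (q₀, y)) v := by
    intro v
    have h1 := (line_data hφ Λ hh hβs hβ hψ hA' hsum hk v).1
    have h2 : ∑ y ∈ A, μ y * (cov (Λ.X (q₀, y)) v - cov (secOf ψ β q₀) v) =
        ∑ y ∈ A, μ y * cov (Λ.X (q₀, y)) v - Mu * cov (secOf ψ β q₀) v := by
      rw [hMu, Finset.sum_mul, ← Finset.sum_sub_distrib]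
      exact Finset.sum_congr rfl fun y _ => by ring
    rw [h2] at h1
    have h3 : ∑ y ∈ A, w y * cov (Λ.X (q₀, y)) v =
        (∑ y ∈ A, μ y * cov (Λ.X (q₀, y)) v) / Mu := by
      rw [Finset.sum_div]
      exact Finset.sum_congr rfl fun y _ => by simp only [hw]; ring
    rw [h3, eq_div_iff hMupos.ne']
    linarith
  have hbary : cov (secOf ψ β q₀) = ∑ y ∈ A, w y • cov (Λ.X (q₀, y)) := by
    refine ContinuousLinearMap.ext fun v => ?_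
    rw [hfirst v, sum_apply]
    rfl
  -- the derivative of the section
  have hs1 : MDifferentiableAt 𝓘(ℝ, F) (IC F) (secOf ψ β) q₀ := hsecs.mdifferentiableAt (by simp)
  have hsfst := mfderiv_section_fst hs1
    (Filter.Eventually.of_forall fun q => (rfl : (secOf ψ β q).1 = q)) ξ
  have hskill : mfderiv (IC F) 𝓘(ℝ, F) (rho φ) (secOf ψ β q₀)
      (mfderiv 𝓘(ℝ, F) (IC F) (secOf ψ β) q₀ ξ) = 0 := by
    have h1 := mfderiv_comp (I := 𝓘(ℝ, F)) (I' := IC F) (I'' := 𝓘(ℝ, F)) q₀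
      ((contMDiff_rho hφ).mdifferentiableAt (by simp) (x := secOf ψ β q₀)) hs1
    exact (DFunLike.congr_fun h1 ξ).symm.trans hξ
  have hτ := killed_of (φ := φ) (x := secOf ψ β q₀) (q := q₀) rfl hskill hsfst
  -- the derivatives of the leaves
  have hζ : ∀ y ∈ A, Killed φ q₀ (cov (Λ.X (q₀, y))) ξ (show F × (F →L[ℝ] ℝ) from
      mfderiv 𝓘(ℝ, F) (IC F) (fun q => Λ.X (q, y)) q₀ ξ).2 := by
    intro y hy
    have hU : ∀ᶠ q in 𝓝 q₀, q ∈ Λ.U y := (Λ.isOpen_U y).mem_nhds (hA' y hy)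
    have h1 : MDifferentiableAt 𝓘(ℝ, F) (IC F) (fun q => Λ.X (q, y)) q₀ :=
      (Λ.contMDiffAt_X (hA' y hy)).mdifferentiableAt (by simp)
    have h2 := mfderiv_section_fst h1 (hU.mono fun q hq => Λ.X_fst hq) ξ
    have h3 : mfderiv (IC F) 𝓘(ℝ, F) (rho φ) (Λ.X (q₀, y))
        (mfderiv 𝓘(ℝ, F) (IC F) (fun q => Λ.X (q, y)) q₀ ξ) = 0 := by
      have h4 := mfderiv_comp (I := 𝓘(ℝ, F)) (I' := IC F) (I'' := 𝓘(ℝ, F)) q₀
        ((contMDiff_rho hφ).mdifferentiableAt (by simp) (x := Λ.X (q₀, y))) h1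
      have h5 : (rho φ ∘ fun q => Λ.X (q, y)) =ᶠ[𝓝 q₀] fun _ => y :=
        hU.mono fun q hq => Λ.X_rho hq
      have h6 := h5.mfderiv_eq (I := 𝓘(ℝ, F)) (I' := 𝓘(ℝ, F))
      rw [mfderiv_const] at h6
      exact (DFunLike.congr_fun (h4.symm.trans h6) ξ)
    exact killed_of (φ := φ) (Λ.X_fst (hA' y hy)) h3 h2
  have hpK : ∀ y ∈ A, (⟨q₀, asForm q₀ (cov (Λ.X (q₀, y)))⟩ : Cotangent F L) ∈ K := by
    intro y hy
    have h1 := Λ.X_mem_K (hA y hy)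
    have h2 := eq_mk (Λ.X_fst (hA' y hy))
    exact h2 ▸ h1
  have hMTW := hJ.finset A hw0 hw1 hpK hζ hbary hτ
  -- the second order inequality
  have hsec := (line_data hφ Λ hh hβs hβ hψ hA' hsum hk ξ).2
  have hsec' : ∑ y ∈ A, w y * ((show F × (F →L[ℝ] ℝ) from
      mfderiv 𝓘(ℝ, F) (IC F) (fun q => Λ.X (q, y)) q₀ ξ).2 ξ +
        k * (cov (Λ.X (q₀, y)) ξ - cov (secOf ψ β q₀) ξ) ^ 2) ≤
      (show F × (F →L[ℝ] ℝ) from mfderiv 𝓘(ℝ, F) (IC F) (secOf ψ β) q₀ ξ).2 ξ := by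
    have h3 : ∑ y ∈ A, w y * ((show F × (F →L[ℝ] ℝ) from
      mfderiv 𝓘(ℝ, F) (IC F) (fun q => Λ.X (q, y)) q₀ ξ).2 ξ +
        k * (cov (Λ.X (q₀, y)) ξ - cov (secOf ψ β q₀) ξ) ^ 2) =
        (∑ y ∈ A, μ y * ((show F × (F →L[ℝ] ℝ) from
      mfderiv 𝓘(ℝ, F) (IC F) (fun q => Λ.X (q, y)) q₀ ξ).2 ξ +
        k * (cov (Λ.X (q₀, y)) ξ - cov (secOf ψ β q₀) ξ) ^ 2)) / Mu := by
      rw [Finset.sum_div]
      exact Finset.sum_congr rfl fun y _ => by simp only [hw]; ring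
    rw [h3, div_le_iff₀ hMupos, mul_comm _ Mu]
    exact hsec
  exact variance_step A hκ hw0 hw1 (hfirst ξ) hsec' hMTW y₁ hy₁ (div_pos hμ1 hMupos)

end Pool.Agent.Run7.h811
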