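import Mathlib
import Pool.Agent.Run7.h811.Key
import Pool.Agent.Run7.h811.Cover

/-! The criterion. -/

open scoped Topology ContDiff Manifold
open Set Metric Bundle Filter

noncomputable section

namespace Pool.Agent.Run7.h811

open Pool.Agent.Helper186

set_option linter.unusedSectionVars false

variable {F : Type*} [NormedAddCommGroup F] [NormedSpace ℝ F] [FiniteDimensional ℝ F]
  {L : Type*} [TopologicalSpace L] [ChartedSpace F L] [IsManifold 𝓘(ℝ, F) ∞ L]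
  {L' : Type*} [TopologicalSpace L'] [ChartedSpace F L'] [IsManifold 𝓘(ℝ, F) ∞ L']

/-- Convex combinations of two smooth families of covectors over the same base map. -/
lemma contMDiff_segment {x y : L' → Cotangent F L} (hx : ContMDiff 𝓘(ℝ, F) (IC F) ∞ x)
    (hy : ContMDiff 𝓘(ℝ, F) (IC F) ∞ y) (hxy : ∀ z, (x z).1 = (y z).1) :
    ContMDiff (𝓘(ℝ, ℝ).prod 𝓘(ℝ, F)) (IC F) ∞ (fun p : ℝ × L' =>
      (⟨(y p.2).1, asForm (y p.2).1 ((1 - p.1) • cov (x p.2) + p.1 • cov (y p.2))⟩ :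
        Cotangent F L)) := by
  intro p₀
  refine contMDiffAt_cot_of_pairing (b := fun p : ℝ × L' => (y p.2).1)
    (θ := fun p => asForm (y p.2).1 ((1 - p.1) • cov (x p.2) + p.1 • cov (y p.2))) ?_ ?_
  · exact (contMDiff_projC _).comp p₀ ((hy _).comp p₀ contMDiffAt_snd)
  · intro v hv
    have h1 := contMDiffAt_cot_pairing (J := 𝓘(ℝ, ℝ).prod 𝓘(ℝ, F))
      (f := fun p : ℝ × L' => y p.2) (v := v) (p₀ := p₀) ((hy _).comp p₀ contMDiffAt_snd) hv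
    let v' : (p : ℝ × L') → TangentSpace 𝓘(ℝ, F) (x p.2).1 := fun p => (v p : F)
    have hv' : ContMDiffAt (𝓘(ℝ, ℝ).prod 𝓘(ℝ, F)) 𝓘(ℝ, F).tangent ∞
        (fun p => (⟨(x p.2).1, v' p⟩ : TangentBundle 𝓘(ℝ, F) L)) p₀ := by
      refine hv.congr_of_eventuallyEq (Filter.Eventually.of_forall fun p => ?_)
      have h2 : ∀ (q q' : L), q = q' → ∀ w : F,
          (⟨q, w⟩ : TangentBundle 𝓘(ℝ, F) L) = ⟨q', w⟩ := by
        rintro q q' rfl w; rfl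
      exact h2 _ _ (hxy p.2) (v p)
    have h2 := contMDiffAt_cot_pairing (J := 𝓘(ℝ, ℝ).prod 𝓘(ℝ, F))
      (f := fun p : ℝ × L' => x p.2) (v := v') (p₀ := p₀) ((hx _).comp p₀ contMDiffAt_snd) hv'
    have h3 : ContMDiffAt (𝓘(ℝ, ℝ).prod 𝓘(ℝ, F)) 𝓘(ℝ, ℝ) ∞ (fun p : ℝ × L' => 1 - p.1) p₀ :=
      contMDiffAt_const.sub contMDiffAt_fst
    exact (h3.mul h2).add (contMDiffAt_fst.mul h1)

/-- The homotopy. -/
lemma exists_homotopy {φ : Cotangent F L → Cotangent F L'} {φi : Cotangent F L' → Cotangent F L}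
    (hφ : ContMDiff (IC F) (IC F) ∞ φ) (hφi : ContMDiff (IC F) (IC F) ∞ φi)
    (hright : ∀ z, φ (φi z) = z) {s : L → Cotangent F L} (hs : ContMDiff 𝓘(ℝ, F) (IC F) ∞ s)
    (hs1 : ∀ q, (s q).1 = q) :
    ∃ (f : C(L', L)) (H : C(unitInterval × L', L')), (∀ y, H (0, y) = rho φ (s (f y))) ∧
      ∀ y, H (1, y) = y := by
  let y₁ : L' → Cotangent F L := fun z => φi (zeroC z)
  have hy₁ : ContMDiff 𝓘(ℝ, F) (IC F) ∞ y₁ := hφi.comp contMDiff_zeroC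
  let f : C(L', L) := ⟨fun z => (y₁ z).1, (contMDiff_projC.comp hy₁).continuous⟩
  let x₁ : L' → Cotangent F L := fun z => s (y₁ z).1
  have hx₁ : ContMDiff 𝓘(ℝ, F) (IC F) ∞ x₁ := hs.comp (contMDiff_projC.comp hy₁)
  have hseg := contMDiff_segment hx₁ hy₁ (fun z => hs1 _)
  have hH : Continuous (fun p : ℝ × L' => rho φ
      (⟨(y₁ p.2).1, asForm (y₁ p.2).1 ((1 - p.1) • cov (x₁ p.2) + p.1 • cov (y₁ p.2))⟩ :
        Cotangent F L)) := ((contMDiff_rho hφ).comp hseg).continuous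
  refine ⟨f, ⟨fun p => rho φ (⟨(y₁ p.2).1, asForm (y₁ p.2).1
    ((1 - (p.1 : ℝ)) • cov (x₁ p.2) + (p.1 : ℝ) • cov (y₁ p.2))⟩ : Cotangent F L),
    hH.comp ((continuous_subtype_val.comp continuous_fst).prodMk continuous_snd)⟩, ?_, ?_⟩
  · intro y
    show rho φ (⟨(y₁ y).1, asForm (y₁ y).1
      ((1 - ((0 : unitInterval) : ℝ)) • cov (x₁ y) + ((0 : unitInterval) : ℝ) • cov (y₁ y))⟩ : Cotangent F L) =
      rho φ (s (f y))
    have h1 : (1 - ((0 : unitInterval) : ℝ)) • cov (x₁ y) + ((0 : unitInterval) : ℝ) • cov (y₁ y) = cov (x₁ y) := by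
      simp
    rw [h1]
    have h2 := eq_mk (x := x₁ y) (q := (y₁ y).1) (hs1 _)
    exact congrArg (rho φ) h2.symm
  · intro y
    show rho φ (⟨(y₁ y).1, asForm (y₁ y).1
      ((1 - ((1 : unitInterval) : ℝ)) • cov (x₁ y) + ((1 : unitInterval) : ℝ) • cov (y₁ y))⟩ : Cotangent F L) = y
    have h1 : (1 - ((1 : unitInterval) : ℝ)) • cov (x₁ y) + ((1 : unitInterval) : ℝ) • cov (y₁ y) = cov (y₁ y) := by
      simp
    rw [h1]
    have h2 := eq_mk (x := y₁ y) (q := (y₁ y).1) rfl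
    have h3 : rho φ (y₁ y) = y := by
      show (φ (φi (zeroC y))).1 = y
      rw [hright]
      rfl
    exact (congrArg (rho φ) h2.symm).trans h3

/-- **The criterion.** -/
theorem criterion [T2Space L] [CompactSpace L] [ConnectedSpace L] [T2Space L']
    {φ : Cotangent F L → Cotangent F L'} {φi : Cotangent F L' → Cotangent F L}
    (hφ : ContMDiff (IC F) (IC F) ∞ φ) (hφi : ContMDiff (IC F) (IC F) ∞ φi)
    (hright : ∀ z, φ (φi z) = z)
    (hsymp : ∀ x (u v : TangentSpace (IC F) x),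
      extDer (IC F) (canForm : (ξ : Cotangent F L') → _) (φ x)
        (mfderiv (IC F) (IC F) φ x u) (mfderiv (IC F) (IC F) φ x v) =
      extDer (IC F) (canForm : (ξ : Cotangent F L) → _) x u v)
    {h : Cotangent F L → ℝ} (hh : ContMDiff (IC F) 𝓘(ℝ, ℝ) ∞ h)
    (hvert : ∀ x (v : TangentSpace (IC F) x),
      mfderiv (IC F) 𝓘(ℝ, F) (TotalSpace.proj : Cotangent F L → L) x v = 0 →
      dForm (IC F) h x v = canForm (φ x) (mfderiv (IC F) (IC F) φ x v))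
    {K : Set (Cotangent F L)} (hK : IsCompact K)
    (hwell : ∀ q : L, ∃ x ∈ K, x.1 = q ∧ ∀ y ∈ frontier K, y.1 = q → h x < h y)
    (hinj : ∀ x ∈ K, ∀ y ∈ K, x.1 = y.1 → (φ x).1 = (φ y).1 → x = y)
    (himm : ∀ x ∈ K, ∀ v : TangentSpace (IC F) x,
      mfderiv (IC F) 𝓘(ℝ, F) (TotalSpace.proj : Cotangent F L → L) x v = 0 →
      mfderiv (IC F) 𝓘(ℝ, F) (rho φ) x v = 0 → v = 0)
    {κ : ℝ} (hJ : Jensen φ K κ) : Nonempty (L ≃ₘ^∞⟮𝓘(ℝ, F), 𝓘(ℝ, F)⟯ L') := by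
  classical
  obtain ⟨β, hβs, hβ⟩ := exists_base_form hφ hsymp hh hvert
  obtain ⟨Λ⟩ := exists_leaves hφ hK hinj himm
  have hhc : Continuous h := hh.continuous
  obtain ⟨δ, hδ, hgap⟩ := exists_gap hK hhc hwell
  have hmin : ∀ q : L, ∃ x ∈ K, x.1 = q ∧ ∀ y ∈ K, y.1 = q → h x ≤ h y := fun q => by
    obtain ⟨x, hx, hxq, -⟩ := hgap q
    exact exists_minimiser hK hhc ⟨x, hx, hxq⟩
  choose xm hxmK hxmq hxmin using hmin
  set m : L → ℝ := fun q => h (xm q) with hm_def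
  have hm : ∀ y ∈ K, m y.1 ≤ h y := fun y hy => hxmin y.1 y hy rfl
  have hm' : ∀ q, ∃ x ∈ K, x.1 = q ∧ h x = m q := fun q => ⟨xm q, hxmK q, hxmq q, rfl⟩
  have hmf : ∀ q, ∀ y ∈ frontier K, y.1 = q → m q + 4 * δ < h y := by
    intro q y hy hyq
    obtain ⟨x, hx, hxq, hxf⟩ := hgap q
    have h1 := hxmin q x hx hxq
    have h2 := hxf y hy hyq
    simp only [hm_def]
    linarith
  have hint : ∀ x ∈ K, h x = m x.1 → x ∈ interior K := by
    intro x hx hxm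
    by_contra hcon
    have h1 : x ∈ frontier K := by rw [hK.isClosed.frontier_eq]; exact ⟨hx, hcon⟩
    have h2 := hmf x.1 x h1 rfl
    linarith
  obtain ⟨Y, hY⟩ := exists_rich Λ hhc hK hm hm' hδ hint
  obtain ⟨k, hk1, hκk, hkN⟩ := prof_steep (N := Y.card) hδ κ
  obtain ⟨ψ, a, hψ, hψ1, hψ2⟩ := exists_softmin Y (K := Λ.KK) (I := Λ.II) (U := Λ.U)
    (c := fun y q => h (Λ.X (q, y))) (b := fun q => m q + 4 * δ)
    (Λ.isClosed_KK hφ.continuous hK) Λ.isOpen_II Λ.II_sub Λ.isOpen_U Λ.KK_sub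
    (Λ.contMDiffOn_c hh) (fun y q hq hq' =>
      (hmf q _ (Λ.X_frontier hK.isClosed hq hq') (Λ.X_fst (Λ.KK_sub y hq))).le)
    hδ (fun q => by
      obtain ⟨⟨y, hy, hyI, hyh⟩, -⟩ := hY q
      exact ⟨y, hy, Λ.II_sub y hyI, by linarith⟩) hk1 hkN
  have hsecs : ContMDiff 𝓘(ℝ, F) (IC F) ∞ (secOf ψ β) := contMDiff_secOf hψ hβs
  have hT : ContMDiff 𝓘(ℝ, F) 𝓘(ℝ, F) ∞ (rho φ ∘ secOf ψ β) := (contMDiff_rho hφ).comp hsecs
  have hTinj : ∀ q, Function.Injective (mfderiv 𝓘(ℝ, F) 𝓘(ℝ, F) (rho φ ∘ secOf ψ β) q) := by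
    intro q
    have h0 : ∀ ξ : F, (show F →L[ℝ] F from
        mfderiv 𝓘(ℝ, F) 𝓘(ℝ, F) (rho φ ∘ secOf ψ β) q) ξ = 0 → ξ = 0 := by
      intro ξ hξ
      by_contra hne
      obtain ⟨y, hy, y', hy', hyI, hyI', hyh, hyh', hcov⟩ := (hY q).2 ξ hne
      obtain ⟨j, hj, hjK, hjψ⟩ := hψ1 q
      have h1 : m q ≤ h (Λ.X (q, j)) := hxmin q _ (Λ.X_mem_K hjK) (Λ.X_fst (Λ.KK_sub j hjK))
      have h2 := key_step hφ Λ hh hβs hβ hκk hk1 hJ hψ (q₀ := q)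
        (A := Y.filter (fun y => q ∈ Λ.II y))
        (fun y hy => Λ.II_sub y (Finset.mem_filter.1 hy).2) (hψ2 q) hξ
      have h3 := h2 y (Finset.mem_filter.2 ⟨hy, hyI⟩) (by linarith)
      have h4 := h2 y' (Finset.mem_filter.2 ⟨hy', hyI'⟩) (by linarith)
      exact hcov (h3.trans h4.symm)
    exact (injective_iff_map_eq_zero (show F →L[ℝ] F from
        mfderiv 𝓘(ℝ, F) 𝓘(ℝ, F) (rho φ ∘ secOf ψ β) q)).2 h0
  obtain ⟨f, H, h0, h1⟩ := exists_homotopy hφ hφi hright hsecs (fun q => rfl)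
  exact diffeomorph_of_homotopy hT hTinj f H h0 h1

end Pool.Agent.Run7.h811
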